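import Pool.Agent.W908.P.P13

/-!
# The oracle: random bits, and a solver for the polynomial hierarchy that sees only a part of them
-/

set_option autoImplicit false

namespace Pool.Agent.W908.HS

open Pool.Agent.NPC Pool.Agent.H620R2.Gauge Finset H568R2 Pool.Agent.H676
open Pool.Agent.W908.SP (Fo Qo bv unif_nn unif_sm Ex_owr Ex_unif_av)
open Pool.Agent.W908 (fr mach)

/-- The string `s` is protected at the level `ℓ`, for the secret strings `P m`. -/
def Star (P : ℕ → List Bool) (ℓ : ℕ) (s : List Bool) : Prop :=
  ∃ m, ℓ ≤ m ∧ m ≤ s.length ∧ (P m).take ℓ <:+: s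

theorem Star.mono {P : ℕ → List Bool} {ℓ ℓ' : ℕ} (h : ℓ' ≤ ℓ) {s : List Bool}
    (hs : Star P ℓ s) : Star P ℓ' s := by
  obtain ⟨m, h1, h2, h3⟩ := hs
  refine ⟨m, h.trans h1, h2, ?_⟩
  have h4 : (P m).take ℓ' <+: (P m).take ℓ := List.take_prefix_take_left h
  exact h4.isInfix.trans h3

/-- the secrets, cut -/
def cut (P : ℕ → List Bool) (ℓ : ℕ) : ℕ → List Bool := fun m => (P m).take ℓ

theorem star_cut {P : ℕ → List Bool} {ℓ ℓ' : ℕ} (h : ℓ ≤ ℓ') {s : List Bool} :
    Star (cut P ℓ') ℓ s ↔ Star P ℓ s := by
  unfold Star cut
  simp only [List.take_take, min_eq_left h]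

theorem star_congr {P P' : ℕ → List Bool} {B ℓ : ℕ} (h : ∀ m < B, P m = P' m) {s : List Bool}
    (hs : s.length < B) : Star P ℓ s ↔ Star P' ℓ s := by
  unfold Star
  refine exists_congr fun m => and_congr_right fun _ => and_congr_right fun h2 => ?_
  rw [h m (by omega)]

open Classical in
/-- the protected bits are replaced -/
noncomputable def rr (P : ℕ → List Bool) (ℓ : ℕ) (A Z : Oracle) : Oracle :=
  fun s => if Star P ℓ s then Z s else A s

theorem exists_mkP : ∃ f : List Bool → Par, Function.Surjective f := by
  haveI : Nonempty Par := ⟨⟨(mach []).1, 0, 0, 0⟩⟩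
  obtain ⟨g, hg⟩ := exists_surjective_nat Par
  refine ⟨fun s => g s.length, fun θ => ?_⟩
  obtain ⟨n, hn⟩ := hg θ
  exact ⟨List.replicate n true, by simpa using hn⟩

/-- the parameters, from the code -/
noncomputable def mkP : List Bool → Par := Classical.choose exists_mkP

theorem mkP_surj : Function.Surjective mkP := Classical.choose_spec exists_mkP

/-- the formula with the parameters `θ` at the input `x` -/
noncomputable def fo (θ : Par) (x : List Bool) (O : Oracle) : Bool :=
  Qo θ.M (θ.p.eval x.length) θ.k x O

/-- the level of a question to the solver -/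
def lvl (q : List Bool) : ℕ := Nat.log 2 (unpair (unpair q).2).2.length

/-- the formula of a question to the solver -/
noncomputable def pd (q : List Bool) (O : Oracle) : Bool :=
  fo (mkP (unpair q).1) (unpair (unpair q).2).1 O

/-- The answer of the solver: the more likely value if the protected bits are random. -/
noncomputable def slv (P : ℕ → List Bool) (F : Oracle → Oracle) (A : Oracle) (N : ℕ)
    (q : List Bool) : Bool :=
  decide (1 / 2 ≤ Ex unif (fun z : Fin N → Bool => bv (pd q (F (rr P (lvl q) A (orc N z))))))

/-- the answer to a question of length `T` -/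
noncomputable def ev (P : ℕ → List Bool) (F : Oracle → Oracle) (A : Oracle) (T : ℕ) :
    List Bool → Bool
  | [] => false
  | false :: s => A (false :: s)
  | true :: q => slv P F A (2 ^ (T + 1)) q

/-- the oracle for the questions of length less than `T` -/
noncomputable def oh (P : ℕ → List Bool) : ℕ → Oracle → Oracle
  | 0 => fun _ _ => false
  | T + 1 => fun A s => if s.length < T then oh P T A s else
      if s.length = T then ev P (oh P T) A T s else false

theorem oh_ge {P : ℕ → List Bool} {T : ℕ} {A : Oracle} {s : List Bool} (h : T ≤ s.length) :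
    oh P T A s = false := by
  cases T with
  | zero => rfl
  | succ T =>
    show (if s.length < T then oh P T A s else
      if s.length = T then ev P (oh P T) A T s else false) = false
    rw [if_neg (by omega), if_neg (by omega)]

theorem oh_lt {P : ℕ → List Bool} {A : Oracle} {s : List Bool} : ∀ {T : ℕ}, s.length < T →
    oh P T A s = ev P (oh P s.length) A s.length s := by
  intro T
  induction T with
  | zero => intro h; omega
  | succ T ih =>
    intro h
    show (if s.length < T then oh P T A s else
      if s.length = T then ev P (oh P T) A T s else false) = _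
    by_cases h1 : s.length < T
    · rw [if_pos h1, ih h1]
    · have h2 : s.length = T := by omega
      rw [if_neg h1, if_pos h2, h2]

theorem oh_data {P : ℕ → List Bool} {A : Oracle} {T : ℕ} {s : List Bool}
    (h : (false :: s).length < T) : oh P T A (false :: s) = A (false :: s) := by
  rw [oh_lt h]
  rfl

theorem oh_slv {P : ℕ → List Bool} {A : Oracle} {T : ℕ} {q : List Bool}
    (h : (true :: q).length < T) : oh P T A (true :: q) =
      slv P (oh P (q.length + 1)) A (2 ^ (q.length + 2)) q := by
  rw [oh_lt h]
  rfl

theorem oh_nil {P : ℕ → List Bool} {A : Oracle} {T : ℕ} : oh P T A [] = false := by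
  by_cases h : ([] : List Bool).length < T
  · rw [oh_lt h]
    rfl
  · exact oh_ge (by omega)

theorem oh_trunc {P : ℕ → List Bool} {A : Oracle} {T T' : ℕ} {s : List Bool}
    (h : s.length < T) (h' : s.length < T') : oh P T A s = oh P T' A s := by
  rw [oh_lt h, oh_lt h']

theorem rr_congr {P P' : ℕ → List Bool} {ℓ : ℕ} {A A' Z : Oracle} {s : List Bool}
    (h1 : Star P ℓ s ↔ Star P' ℓ s) (h2 : A s = A' s) : rr P ℓ A Z s = rr P' ℓ A' Z s := by
  classical
  unfold rr
  simp only [h1, h2]

/-- locality -/
theorem oh_congr {P P' : ℕ → List Bool} : ∀ {T : ℕ} {A A' : Oracle}, (∀ m < T, P m = P' m) →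
    (∀ s : List Bool, (false :: s).length < T → A (false :: s) = A' (false :: s)) →
    oh P T A = oh P' T A' := by
  intro T
  induction T using Nat.strong_induction_on with
  | _ T ih =>
    intro A A' hP hA
    funext s
    by_cases h : s.length < T
    · match s with
      | [] => rw [oh_nil, oh_nil]
      | false :: s => rw [oh_data h, oh_data h, hA _ h]
      | true :: q =>
        rw [oh_slv h, oh_slv h]
        unfold slv
        have hl : q.length + 1 < T := by simpa using h
        have e : ∀ z : Fin (2 ^ (q.length + 2)) → Bool,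
            oh P (q.length + 1) (rr P (lvl q) A (orc _ z)) =
              oh P' (q.length + 1) (rr P' (lvl q) A' (orc _ z)) := by
          intro z
          refine ih _ hl (fun m hm => hP m (by omega)) fun s hs => ?_
          exact rr_congr (star_congr (B := T) hP (by omega)) (hA s (by omega))
        simp only [e]
    · rw [oh_ge (by omega), oh_ge (by omega)]

theorem lvl_le {q : List Bool} {ℓ : ℕ} (h : q.length < 2 ^ ℓ) : lvl q ≤ ℓ := by
  unfold lvl
  have h1 := (unpair_len (unpair q).2).2
  have h2 := (unpair_len q).2
  rcases Nat.eq_zero_or_pos (unpair (unpair q).2).2.length with h3 | h3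
  · rw [h3]
    simp
  · exact (Nat.log_lt_of_lt_pow h3.ne' (by omega)).le

/-- the answers of the solver do not depend on the protected bits -/
theorem oh_star {P : ℕ → List Bool} {T ℓ : ℕ} {A A' : Oracle} (hT : T ≤ 2 ^ ℓ)
    (h : ∀ s, ¬ Star P ℓ s → A s = A' s) (q : List Bool) :
    oh P T A (true :: q) = oh P T A' (true :: q) := by
  by_cases hq : (true :: q).length < T
  · rw [oh_slv hq, oh_slv hq]
    unfold slv
    have hl : lvl q ≤ ℓ := lvl_le (by simp only [List.length_cons] at hq; omega)
    have e : ∀ Z : Oracle, rr P (lvl q) A Z = rr P (lvl q) A' Z := by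
      classical
      intro Z
      funext s
      unfold rr
      by_cases hs : Star P (lvl q) s
      · rw [if_pos hs, if_pos hs]
      · rw [if_neg hs, if_neg hs, h s fun h1 => hs (h1.mono hl)]
    simp only [e]
  · rw [oh_ge (by omega), oh_ge (by omega)]

/-- only the first bits of the secrets matter -/
theorem oh_cut {P : ℕ → List Bool} {ℓ : ℕ} : ∀ {T : ℕ} {A : Oracle}, T ≤ 2 ^ ℓ →
    oh (cut P ℓ) T A = oh P T A := by
  intro T
  induction T using Nat.strong_induction_on with
  | _ T ih =>
    intro A hT
    funext s
    by_cases h : s.length < T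
    · match s with
      | [] => rw [oh_nil, oh_nil]
      | false :: s => rw [oh_data h, oh_data h]
      | true :: q =>
        rw [oh_slv h, oh_slv h]
        unfold slv
        have hl : q.length + 1 < T := by simpa using h
        have hl2 : lvl q ≤ ℓ := lvl_le (by omega)
        have e : ∀ z : Fin (2 ^ (q.length + 2)) → Bool,
            oh (cut P ℓ) (q.length + 1) (rr (cut P ℓ) (lvl q) A (orc _ z)) =
              oh P (q.length + 1) (rr P (lvl q) A (orc _ z)) := by
          intro z
          rw [ih _ hl (by omega)]
          congr 1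
          funext s
          exact rr_congr (star_cut hl2) rfl
        simp only [e]
    · rw [oh_ge (by omega), oh_ge (by omega)]

/-- the oracle -/
noncomputable def OH (W : Oracle) : Oracle := fun s => oh (PS.pwd W) (s.length + 1) W s

theorem OH_eq {W : Oracle} {T : ℕ} {s : List Bool} (h : s.length < T) :
    OH W s = oh (PS.pwd W) T W s := oh_trunc (Nat.lt_succ_self _) h

theorem fr_OH (W : Oracle) : fr (OH W) = fun s => W (false :: s) := by
  funext s
  show OH W (false :: s) = _
  rw [OH_eq (T := s.length + 2) (by simp), oh_data (by simp)]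

end Pool.Agent.W908.HS
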