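import Pool.Agent.W908.H.H9

/-! The polynomial hierarchy: the choice of the parameters. -/

set_option autoImplicit false

namespace Pool.Agent.W908.HS

open Pool.Agent.NPC Pool.Agent.H620R2.Gauge Finset H568R2 Pool.Agent.H676
open Pool.Agent.W908 (fr)
open Pool.Agent.W908.SP (mem_strsOf' card_strsOf' idx_inj Ex_owr Ex_unif_av unif_nn unif_sm)
open Pool.Agent.H591R3.PHG (Idx Tr pw lx Lx eval_Lx inp_len_le sum_le exists_sizes inv_start)
open Pool.Agent.W908.PS (Rare pre_local)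

theorem rare_easyH (θ : Par) : Rare (EasyH θ) := by
  classical
  intro K hK
  obtain ⟨r, hr⟩ : ∃ r, r = rb θ.M := ⟨_, rfl⟩
  obtain ⟨k, hkθ⟩ : ∃ k, k = θ.k := ⟨_, rfl⟩
  obtain ⟨mP, hmP⟩ : ∃ mP : Polynomial ℕ, mP = Lx k +
    Polynomial.C (64 * (k + 1) + 8) * Polynomial.X := ⟨_, rfl⟩
  obtain ⟨LP, hLP⟩ : ∃ LP : Polynomial ℕ, LP = Lx k + mP := ⟨_, rfl⟩
  obtain ⟨lP, hlP⟩ : ∃ lP : Polynomial ℕ, lP = 2 * LP + 1 + θ.p'.comp LP := ⟨_, rfl⟩
  obtain ⟨mmP, hmmP⟩ : ∃ mmP : Polynomial ℕ, mmP = θ.p.comp lP := ⟨_, rfl⟩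
  obtain ⟨LtP, hLtP⟩ : ∃ LtP : Polynomial ℕ, LtP = lP + Polynomial.C k * (2 * mmP + 1) :=
    ⟨_, rfl⟩
  obtain ⟨PP, hPP⟩ : ∃ PP : Polynomial ℕ, PP = 2 * θ.p'.comp LP + LtP + 4 + θ.M.p.comp LtP +
    (r.comp LtP + 2 * mP + 2) := ⟨_, rfl⟩
  obtain ⟨QP, hQP⟩ : ∃ QP : Polynomial ℕ, QP = 3 * (r.comp LtP + 2 * mP + 2) + 2 := ⟨_, rfl⟩
  have hKR : (0 : ℝ) < K := by exact_mod_cast hK
  obtain ⟨n, N, u, hn5, hP, hu, hN, hb⟩ := asym k PP QP (fun _ => 0)
    (fun ε hε => (Filter.Eventually.of_forall fun N => by positivity).frequently)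
    (1 / (K * 2)) (by positivity) 5
  have emP : mP.eval n = (Lx k).eval n + (64 * (k + 1) + 8) * n := by rw [hmP]; simp
  have eLP : LP.eval n = (Lx k).eval n + mP.eval n := by rw [hLP]; simp
  have elP : lP.eval n = 2 * LP.eval n + 1 + θ.p'.eval (LP.eval n) := by
    rw [hlP]; simp [Polynomial.eval_comp]
  have emmP : mmP.eval n = θ.p.eval (lP.eval n) := by rw [hmmP]; simp [Polynomial.eval_comp]
  have eLtP : LtP.eval n = lP.eval n + k * (2 * mmP.eval n + 1) := by rw [hLtP]; simp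
  have ePP : PP.eval n = 2 * θ.p'.eval (LP.eval n) + LtP.eval n + 4 +
      θ.M.p.eval (LtP.eval n) + (r.eval (LtP.eval n) + 2 * mP.eval n + 2) := by
    rw [hPP]; simp [Polynomial.eval_comp]
  have eQP : QP.eval n = 3 * (r.eval (LtP.eval n) + 2 * mP.eval n + 2) + 2 := by
    rw [hQP]; simp [Polynomial.eval_comp]
  have hu8 : 8 * u ≤ n := by
    have : 8 * u ≤ 8 * (k + 1) * u := by nlinarith [Nat.zero_le (k * u)]
    omega
  obtain ⟨as, hk, has, hX⟩ := exists_sizes hn5 k _ (inv_start hn5)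
  obtain ⟨X, hXd⟩ : ∃ X : ℕ, X = 2 ^ (u + 11) := ⟨_, rfl⟩
  have hlaw := hX (Fin X) (2 ^ (3 * u + 11)) (2 ^ (u + 9)) (by
      calc 16 * 2 ^ (3 * u + 11) = 2 ^ (3 * u + 15) := by
            rw [show 3 * u + 15 = 3 * u + 11 + 4 from rfl, pow_add _ (3 * u + 11) 4]; ring
        _ ≤ 2 ^ (4 * n) := Nat.pow_le_pow_right (by norm_num) (by omega)) (by
      rw [Fintype.card_fin, hXd]
      have : 2 ^ (u + 11) = 4 * 2 ^ (u + 9) := by
        rw [show u + 11 = u + 9 + 2 from rfl, pow_add _ (u + 9) 2]; ring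
      omega)
  rw [Fintype.card_fin] at hlaw
  obtain ⟨m, hm⟩ : ∃ m, m = mP.eval n := ⟨_, rfl⟩
  have hlx : lx as n ≤ (Lx k).eval n := inp_len_le hk has
  have hsum := sum_le n as has
  rw [hk] at hsum
  have e1 : (64 * (k + 1) + 8) * n = (k + 1) * (64 * n) + 8 * n := by ring
  have hm1 : lx as n + as.sum + 8 * n ≤ m := by rw [hm, emP]; omega
  have hL : lx as n + m ≤ LP.eval n := by rw [eLP, ← hm]; omega
  have hp' : θ.p'.eval (lx as n + m) ≤ θ.p'.eval (LP.eval n) := eval_mono _ hL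
  obtain ⟨T, hTd⟩ : ∃ T, T = r.eval (LtP.eval n) + 2 * m + 2 := ⟨_, rfl⟩
  have hBN : 2 ^ (3 * T + 2 + 1) ≤ N := by
    rw [hTd, hm, ← eQP]; exact hN
  have hTm : T ≤ 2 ^ m := by
    have h1 : T ≤ PP.eval n := by rw [hTd, hm, ePP]; omega
    refine (h1.trans hP).trans (Nat.pow_le_pow_right (by norm_num) ?_)
    omega
  refine ⟨fun _ => N, fun i a => i = 0 ∧ EvH θ as n m X T (orc N a), fun i => ?_, fun W hW => ?_⟩
  · by_cases hi : i = 0
    · subst hi
      have h1 := evH_prob θ (N := N) (m := m) (T := T) (ℓ := lP.eval n) (mm := mmP.eval n) hXd hn5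
        hu8 (by rw [← hkθ]; exact hk) hlaw hm1 hTm
        ((Nat.pow_le_pow_right (by norm_num) (by omega)).trans hBN) (by rw [elP]; omega)
        (by rw [emmP]) (by
          rw [← hkθ, ← eLtP]
          omega)
      simp only [true_and, Nat.cast_zero, zero_add]
      refine h1.trans (le_trans ?_ (le_trans (by simpa using hb) (le_of_eq (by norm_num))))
      rw [← hkθ, ← eLtP]
      obtain ⟨p1, hp1⟩ : ∃ p1, p1 = θ.p'.eval (lx as n + m) := ⟨_, rfl⟩
      rw [← hp1] at hp' ⊢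
      have h3 : (2 : ℝ) ^ p1 * 2 ^ p1 * 2 ^ (LtP.eval n + 2) ≤ 2 ^ PP.eval n := by
        rw [← pow_add, ← pow_add]
        apply pow_le_pow_right₀ (by norm_num)
        omega
      have h4 : (2 : ℝ) ^ p1 * 2 ^ p1 * 3 ≤ 2 ^ PP.eval n := by
        have : (2 : ℝ) ^ p1 * 2 ^ p1 * 3 ≤ 2 ^ p1 * 2 ^ p1 * 2 ^ 2 := by
          apply mul_le_mul_of_nonneg_left (by norm_num) (by positivity)
        refine this.trans ?_
        rw [← pow_add, ← pow_add]
        apply pow_le_pow_right₀ (by norm_num)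
        omega
      have h5 : (0 : ℝ) ≤ k * (1 / 2) ^ (2 ^ (2 * u) + 1) := by positivity
      have h6 : (0 : ℝ) ≤ (1 / 2) ^ (2 ^ u) := by positivity
      have h7 := mul_le_mul_of_nonneg_right h3 h5
      have h8 := mul_le_mul_of_nonneg_right h4 h6
      have hq1 : ((1 : ℝ) / (24 * 2 ^ (2 * u))) ^ k ≤ 1 := by
        apply pow_le_one₀ (by positivity)
        rw [div_le_one (by positivity)]
        have : (1 : ℝ) ≤ 2 ^ (2 * u) := one_le_pow₀ (by norm_num)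
        linarith
      have h9 : (0 : ℝ) ≤ 2 ^ PP.eval n * (2 ^ u * (2 ^ (3 * u) + 1) *
          (1 - (1 / (24 * 2 ^ (2 * u))) ^ k) ^ (2 ^ n / (2 ^ (3 * u) + 1))) := by
        have : (0 : ℝ) ≤ (1 - (1 / (24 * 2 ^ (2 * u))) ^ k) ^ (2 ^ n / (2 ^ (3 * u) + 1)) :=
          pow_nonneg (by linarith) _
        positivity
      have e : (2 : ℝ) ^ p1 * (2 ^ p1 * (k * (2 ^ (LtP.eval n + 2) *
          (1 / 2) ^ (2 ^ (2 * u) + 1)) + 3 * (1 / 2) ^ (2 ^ u))) =
          2 ^ p1 * 2 ^ p1 * 2 ^ (LtP.eval n + 2) *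
          (k * (1 / 2) ^ (2 ^ (2 * u) + 1)) + 2 ^ p1 * 2 ^ p1 * 3 * (1 / 2) ^ (2 ^ u) := by
        ring
      rw [e]
      unfold bnd
      linarith
    · simp only [hi, false_and, if_false]
      rw [Ex_const unif_sm]
      positivity
  · refine ⟨0, rfl, ?_⟩
    refine evH_local (W := W) hm1 (by omega) (fun q hq => (pre_local W hBN hq).symm)
      (evH_of_easy hW (by rw [← hkθ]; exact hk) fun c hc => ?_)
    have h1 : r.eval (2 * (lx as n + m) + 1 + c +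
      θ.k * (2 * θ.p.eval (2 * (lx as n + m) + 1 + c) + 1)) ≤ r.eval (LtP.eval n) := by
      apply eval_mono
      have h2 : 2 * (lx as n + m) + 1 + c ≤ lP.eval n := by rw [elP]; omega
      have h3 : θ.p.eval (2 * (lx as n + m) + 1 + c) ≤ mmP.eval n := by
        rw [emmP]; exact eval_mono _ h2
      have h4 : θ.k * (2 * θ.p.eval (2 * (lx as n + m) + 1 + c) + 1) ≤
        k * (2 * mmP.eval n + 1) := by
        rw [← hkθ]
        exact Nat.mul_le_mul_left _ (by omega)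
      rw [eLtP]
      omega
    rw [← hr]
    omega

end Pool.Agent.W908.HS
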