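import Pool.Agent.W908.H.H10
import Pool.Agent.W908.S.S10

/-! All together. -/

set_option autoImplicit false

namespace Pool.Agent.W908.HS

open Pool.Agent.NPC Pool.Agent.H620R2.Gauge Finset H568R2 Pool.Agent.H676
open Pool.Agent.W908 (fr)
open Pool.Agent.W908.RS (EasyOnSamples)
open Pool.Agent.W908.SP (isSig_of_fr)
open Pool.Agent.W908.PS (exists_good)
open Pool.Agent.H591R3.PHG (IsSig IsSigPoly lang lang_sig)

theorem exists_WH : ∃ W : Oracle, (∀ θ, W ∉ EasyH θ) ∧ ∀ θ G q c, GoodH θ G q c W := by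
  have h1 := CC.poly_countable
  obtain ⟨W, hW⟩ := exists_good (Θ := Par ⊕ (Par × Alg × Polynomial ℕ × ℕ))
    (fun θ => match θ with
      | Sum.inl θ => EasyH θ
      | Sum.inr t => {W | ¬ GoodH t.1 t.2.1 t.2.2.1 t.2.2.2 W})
    (fun θ => match θ with
      | Sum.inl θ => rare_easyH θ
      | Sum.inr t => rare_goodH t.1 t.2.1 t.2.2.1 t.2.2.2)
  refine ⟨W, fun θ => hW (Sum.inl θ), fun θ G q c => ?_⟩
  exact not_not.1 (hW (Sum.inr (θ, G, q, c)))

/-- A relativized world where the polynomial hierarchy is infinite but all of it is easy on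
average. -/
theorem main : ∃ O : Oracle,
    (∀ k : ℕ, ∃ L : Set (List Bool), IsSig O (k + 1) L ∧ ¬ IsSigPoly O k L) ∧
    ∀ (k : ℕ) (L : Set (List Bool)), IsSig O k L → ∀ F : List Bool → List Bool, IsFP O F →
      ∀ (q : Polynomial ℕ) (c : ℕ), EasyOnSamples O L F q c := by
  obtain ⟨W, h1, h2⟩ := exists_WH
  refine ⟨OH W, fun k => ⟨_, isSig_of_fr (lang_sig (fr (OH W)) k), fun h => ?_⟩,
    fun k L hL F hF q c => easyH h2 hL hF q c⟩
  obtain ⟨θ, hθ⟩ := mem_easyH h
  exact h1 θ hθ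

end Pool.Agent.W908.HS
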