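import Pool.Agent.W908.H.H11

/-! Parities of blocks of bits are exponentially hard for shallow decision trees. -/

set_option autoImplicit false

namespace Pool.Agent.W908.HS

open Finset H568R2 Pool.Agent.H676 Pool.Agent.H620R2.Gauge Pool.Agent.NPC
open Pool.Agent.W908.SP (unif_nn unif_sm Ex_unif_av)

/-- the sign -/
def sg (b : Bool) : ℝ := if b then -1 else 1

theorem sg_sq (b : Bool) : sg b * sg b = 1 := by cases b <;> norm_num [sg]

section

variable {I : Type} [Fintype I] [DecidableEq I]

theorem deg_sg {t : ℕ} {f : (I → Bool) → Bool} (h : DTr t f) : Deg t (fun b => sg (f b)) := by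
  have h1 := (Deg.const (I := I) 1).mono (Nat.zero_le t)
  have h2 := h1.add ((DTr.deg h).smul (-2))
  refine (congrArg (Deg t) (funext fun b => ?_)).mp h2
  unfold br sg
  cases f b <;> norm_num

theorem deg_prod {X : Type} [DecidableEq X] (D : X → (I → Bool) → Bool) {t : ℕ}
    (hD : ∀ x, DTr t (D x)) (S : Finset X) :
    Deg (S.card * t) (fun b => ∏ x ∈ S, sg (D x b)) := by
  induction S using Finset.induction_on with
  | empty =>
    simp only [Finset.card_empty, zero_mul, Finset.prod_empty]
    exact Deg.const 1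
  | insert x S hx ih =>
    have h1 := (deg_sg (hD x)).mul ih
    rw [Finset.card_insert_of_notMem hx]
    have e : t + S.card * t = (S.card + 1) * t := by ring
    rw [e] at h1
    refine (congrArg (Deg _) (funext fun b => ?_)).mp h1
    rw [Finset.prod_insert hx]

end

variable {J X : Type} [Fintype J] [DecidableEq J] [Fintype X] [DecidableEq X]

theorem ch_block (S : Finset X) (b : J × X → Bool) :
    ch (fun i : J × X => decide (i.2 ∈ S)) b = ∏ x ∈ S, ∏ j, sg (b (j, x)) := by
  unfold ch
  rw [Fintype.prod_prod_type_right]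
  rw [← Finset.prod_subset (Finset.subset_univ S)]
  · refine Finset.prod_congr rfl fun x hx => Finset.prod_congr rfl fun j _ => ?_
    unfold sg
    simp [hx]
  · intro x _ hx
    refine Finset.prod_eq_one fun j _ => ?_
    simp [hx]

theorem wt_block (S : Finset X) :
    wt (fun i : J × X => decide (i.2 ∈ S)) = Fintype.card J * S.card := by
  unfold wt
  have h : (Finset.univ.filter (fun i : J × X => decide (i.2 ∈ S) = true)) =
      (Finset.univ : Finset J) ×ˢ S := by
    ext i
    simp [Finset.mem_product]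
  rw [h, Finset.card_product, Finset.card_univ]

/-- the agreement, as a sign -/
def ag1 (D : X → (J × X → Bool) → Bool) (c : X → ℕ) (x : X) (b : J × X → Bool) : ℝ :=
  sg (D x b) * (-1) ^ (c x + (Finset.univ.filter (fun j => b (j, x) = true)).card)

theorem ag1_eq (D : X → (J × X → Bool) → Bool) (c : X → ℕ) (x : X) (b : J × X → Bool) :
    ag1 D c x b = sg (D x b) * ((-1) ^ c x * ∏ j, sg (b (j, x))) := by
  unfold ag1
  rw [pow_add]
  congr 2
  unfold sg
  rw [Finset.prod_ite, Finset.prod_const_one, mul_one, Finset.prod_const]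

theorem ag1_ind (D : X → (J × X → Bool) → Bool) (c : X → ℕ) (x : X) (b : J × X → Bool) :
    (if (D x b = true ↔ Odd (c x + (Finset.univ.filter (fun j => b (j, x) = true)).card))
      then (1 : ℝ) else 0) = (1 + ag1 D c x b) / 2 := by
  unfold ag1 sg
  obtain ⟨m, hm⟩ : ∃ m, m = c x + (Finset.univ.filter (fun j => b (j, x) = true)).card :=
    ⟨_, rfl⟩
  rw [← hm]
  rcases Nat.even_or_odd m with h | h
  · rw [h.neg_one_pow]
    have h2 : ¬ Odd m := by rw [Nat.not_odd_iff_even]; exact h
    cases D x b <;> simp [h2]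
  · rw [h.neg_one_pow]
    cases D x b <;> simp [h]

theorem ag1_prod (D : X → (J × X → Bool) → Bool) {t : ℕ} (hD : ∀ x, DTr t (D x))
    (ht : t < Fintype.card J) (c : X → ℕ) {S : Finset X} (hS : S.Nonempty) :
    Ex unif (fun b => ∏ x ∈ S, ag1 D c x b) = 0 := by
  have h1 : (fun b => ∏ x ∈ S, ag1 D c x b) = fun b => (∏ x ∈ S, (-1 : ℝ) ^ c x) *
      ((∏ x ∈ S, sg (D x b)) * ch (fun i : J × X => decide (i.2 ∈ S)) b) := by
    funext b
    rw [ch_block, ← Finset.prod_mul_distrib, ← Finset.prod_mul_distrib]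
    refine Finset.prod_congr rfl fun x _ => ?_
    rw [ag1_eq]
    ring
  rw [h1, Ex_smul]
  have h2 := deg_prod D hD S (fun i : J × X => decide (i.2 ∈ S)) (by
    rw [wt_block, mul_comm]
    exact Nat.mul_lt_mul_of_pos_right ht hS.card_pos)
  unfold co av at h2
  rw [Ex_unif_av, h2, mul_zero]

theorem ag1_mgf (D : X → (J × X → Bool) → Bool) {t : ℕ} (hD : ∀ x, DTr t (D x))
    (ht : t < Fintype.card J) (c : X → ℕ) (l : ℝ) :
    Ex unif (fun b => Real.exp (l * ∑ x, ag1 D c x b)) = Real.cosh l ^ Fintype.card X := by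
  have hag : ∀ x b, ag1 D c x b = 1 ∨ ag1 D c x b = -1 := by
    intro x b
    unfold ag1 sg
    rcases neg_one_pow_eq_or ℝ (c x + (Finset.univ.filter (fun j => b (j, x) = true)).card)
      with h | h <;> rw [h] <;> cases D x b <;> norm_num
  have h1 : (fun b => Real.exp (l * ∑ x, ag1 D c x b)) =
      fun b => ∑ S ∈ (Finset.univ : Finset X).powerset,
        (Real.sinh l ^ S.card * Real.cosh l ^ (Finset.univ \ S : Finset X).card) *
          ∏ x ∈ S, ag1 D c x b := by
    funext b
    rw [Finset.mul_sum, Real.exp_sum]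
    have h2 : ∀ x, Real.exp (l * ag1 D c x b) = Real.sinh l * ag1 D c x b + Real.cosh l := by
      intro x
      rcases hag x b with h | h
      · rw [h, mul_one, mul_one, add_comm, Real.cosh_add_sinh]
      · rw [h]
        have := Real.cosh_sub_sinh l
        rw [← sub_eq_iff_eq_add', mul_neg_one, mul_neg_one, ← this]
        ring
    rw [Finset.prod_congr rfl fun x _ => h2 x, Finset.prod_add]
    refine Finset.sum_congr rfl fun S _ => ?_
    rw [Finset.prod_mul_distrib, Finset.prod_const, Finset.prod_const]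
    ring
  rw [h1, Ex_sum]
  rw [Finset.sum_eq_single ∅]
  · simp only [Finset.prod_empty, mul_one, Finset.card_empty, pow_zero, one_mul,
      Finset.sdiff_empty, Finset.card_univ]
    exact Ex_const unif_sm _
  · intro S _ hS
    rw [Ex_smul, ag1_prod D hD ht c (Finset.nonempty_iff_ne_empty.2 hS), mul_zero]
  · intro h
    exact absurd (Finset.mem_powerset.2 (Finset.empty_subset _)) h

open Classical in
theorem agree_exp (D : X → (J × X → Bool) → Bool) {t : ℕ} (hD : ∀ x, DTr t (D x))
    (ht : t < Fintype.card J) (c : X → ℕ) {δ : ℝ} (hδ : 0 < δ) :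
    Ex unif (fun b : J × X → Bool => if (1 / 2 + δ) * Fintype.card X <
      ∑ x, (if (D x b = true ↔ Odd (c x + (Finset.univ.filter (fun j => b (j, x) = true)).card))
        then (1 : ℝ) else 0) then (1 : ℝ) else 0) ≤ Real.exp (-(2 * δ ^ 2 * Fintype.card X)) := by
  have h1 : ∀ b : J × X → Bool, (if (1 / 2 + δ) * Fintype.card X <
      ∑ x, (if (D x b = true ↔ Odd (c x + (Finset.univ.filter (fun j => b (j, x) = true)).card))
        then (1 : ℝ) else 0) then (1 : ℝ) else 0) ≤
      Real.exp (-(4 * δ ^ 2 * Fintype.card X)) * Real.exp (2 * δ * ∑ x, ag1 D c x b) := by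
    intro b
    split_ifs with h
    · rw [← Real.exp_add]
      refine Real.one_le_exp ?_
      have h2 : (∑ x, (if (D x b = true ↔ Odd (c x + (Finset.univ.filter
          (fun j => b (j, x) = true)).card)) then (1 : ℝ) else 0)) =
          ∑ x, (1 + ag1 D c x b) / 2 := Finset.sum_congr rfl fun x _ => ag1_ind D c x b
      rw [h2, ← Finset.sum_div, Finset.sum_add_distrib, Finset.sum_const, Finset.card_univ,
        nsmul_eq_mul, mul_one] at h
      nlinarith
    · positivity
  refine (Ex_mono unif_nn h1).trans ?_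
  rw [Ex_smul, ag1_mgf D hD ht c]
  have h2 : Real.cosh (2 * δ) ^ Fintype.card X ≤ Real.exp (2 * δ ^ 2 * Fintype.card X) := by
    have h3 := Real.cosh_le_exp_half_sq (2 * δ)
    refine (pow_le_pow_left₀ (Real.cosh_pos _).le h3 _).trans ?_
    rw [← Real.exp_nat_mul]
    apply Real.exp_le_exp.2
    nlinarith
  refine (mul_le_mul_of_nonneg_left h2 (Real.exp_pos _).le).trans ?_
  rw [← Real.exp_add]
  apply Real.exp_le_exp.2
  linarith

end Pool.Agent.W908.HS
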