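import Pool.Agent.W908.H.H12

/-! A language in `⊕P` that is hard on average: one algorithm and one advice string. -/

set_option autoImplicit false

namespace Pool.Agent.W908.HS

open Pool.Agent.NPC Pool.Agent.H620R2.Gauge Finset H568R2 Pool.Agent.H676
open Pool.Agent.W908.SP (mem_strsOf' card_strsOf' idx_inj Ex_owr unif_nn unif_sm Fo dtr_runG)
open Pool.Agent.H591R3.PHG.Proj (owr owr_e owr_off owr_owr)
open Pool.Agent.W908.PS (pwd ppos length_ppos length_pwd idx_lt_pow pe pe_inj pwd_on orc_off
  Ex_comm)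

/-- The language: the number of the strings `y` of the length of `x` with a positive answer at
`y ++ x` is odd. -/
def LP (W : Oracle) : Set (List Bool) :=
  {x | Odd (Set.ncard {y : List Bool | y.length = x.length ∧ W (false :: (y ++ x)) = true})}

/-- the number of these strings -/
def cnt (A : Oracle) (x : List Bool) : ℕ :=
  ((strsOf x.length).filter (fun y => A (false :: (y ++ x)) = true)).card

theorem mem_LP {A : Oracle} {x : List Bool} : x ∈ LP A ↔ Odd (cnt A x) := by
  have h : {y : List Bool | y.length = x.length ∧ A (false :: (y ++ x)) = true} =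
      ↑((strsOf x.length).filter (fun y => A (false :: (y ++ x)) = true)) := by
    ext y
    simp [mem_strsOf']
  unfold LP cnt
  rw [Set.mem_ofPred_eq, h, Set.ncard_coe_finset]

open Classical in
theorem dep_gen {G : Type} {N m T ℓ' : ℕ} (hTl : T ≤ 2 ^ ℓ') (hlm : ℓ' ≤ m)
    (ps : G → Fin N) (hps : Function.Injective ps) (st : G → List Bool)
    (hst : ∀ g, (ps g).val = idx (false :: st g)) (hN2 : 2 ^ (3 * m + 2) ≤ N)
    (a : Fin N → Bool) (z : Fin m → Bool) (hlen : ∀ g, m ≤ (false :: st g).length)
    (hin : ∀ g, (List.ofFn z).take ℓ' <:+: false :: st g) (q : List Bool) :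
    (∃ c, ∀ v : G → Bool, wd (orc N (owr (pe hN2) (owr ps a v) z)) T q = c) ∨
      ∃ g, ∀ v : G → Bool, wd (orc N (owr (pe hN2) (owr ps a v) z)) T q = v g := by
  obtain ⟨A, hA⟩ : ∃ A : (G → Bool) → Oracle,
    A = fun v => orc N (owr (pe hN2) (owr ps a v) z) := ⟨_, rfl⟩
  have hdep : ∀ q : List Bool, (∃ c, ∀ v, A v q = c) ∨ ∃ g, q = false :: st g ∧
      ∀ v, A v q = v g := by
    intro q
    rw [hA]
    by_cases h : idx q < N
    swap
    · left
      refine ⟨false, fun v => ?_⟩
      beta_reduce
      unfold orc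
      rw [dif_neg h]
    by_cases h1 : ∃ i', pe hN2 i' = ⟨idx q, h⟩
    · obtain ⟨i', hi'⟩ := h1
      left
      refine ⟨z i', fun v => ?_⟩
      beta_reduce
      unfold orc
      rw [dif_pos h, ← hi', owr_e (pe_inj hN2)]
    by_cases h2 : ∃ g, ps g = ⟨idx q, h⟩
    · obtain ⟨g, hg⟩ := h2
      right
      refine ⟨g, ?_, fun v => ?_⟩
      · have h3 := congrArg Fin.val hg
        rw [hst] at h3
        exact (idx_inj h3).symm
      · beta_reduce
        unfold orc
        rw [dif_pos h, owr_off _ _ h1, ← hg, owr_e hps]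
    · left
      refine ⟨a ⟨idx q, h⟩, fun v => ?_⟩
      beta_reduce
      unfold orc
      rw [dif_pos h, owr_off _ _ h1, owr_off _ _ h2]
  by_cases hne : Nonempty (G → Bool)
  swap
  · exact Or.inl ⟨false, fun z => absurd ⟨z⟩ hne⟩
  obtain ⟨v₀⟩ := hne
  have hP : ∀ v, pwd (A v) = pwd (A v₀) := by
    intro v
    funext m'
    unfold pwd
    refine List.map_congr_left fun i _ => ?_
    rcases hdep (ppos m' i) with ⟨c, hc⟩ | ⟨g, hg, -⟩
    · rw [hc, hc]
    · obtain ⟨t, ht⟩ := ppos_head m' i
      rw [ht] at hg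
      simp at hg
  have hPm : pwd (A v₀) m = List.ofFn z := by
    rw [hA]
    exact pwd_on hN2 _ z
  have hstar : ∀ g, Star (pwd (A v₀)) ℓ' (false :: st g) := by
    intro g
    refine ⟨m, hlm, hlen g, ?_⟩
    rw [hPm]
    exact hin g
  have key : ∀ v, wd (A v) T = oh (pwd (A v₀)) T (A v) := by
    intro v
    unfold wd
    rw [hP]
  have hgoal : (∃ c, ∀ v, oh (pwd (A v₀)) T (A v) q = c) ∨
      ∃ g, ∀ v, oh (pwd (A v₀)) T (A v) q = v g := by
    match q with
    | [] => exact Or.inl ⟨false, fun v => oh_nil⟩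
    | true :: q =>
      left
      refine ⟨oh (pwd (A v₀)) T (A v₀) (true :: q), fun v => oh_star hTl (fun s hs => ?_) q⟩
      rcases hdep s with ⟨c, hc⟩ | ⟨g, hg, -⟩
      · rw [hc, hc]
      · exact absurd (by rw [hg]; exact hstar g) hs
    | false :: q =>
      by_cases hq : (false :: q).length < T
      swap
      · exact Or.inl ⟨false, fun v => oh_ge (by omega)⟩
      rcases hdep (false :: q) with ⟨c, hc⟩ | ⟨g, -, hg⟩
      · exact Or.inl ⟨c, fun v => by rw [oh_data hq, hc]⟩
      · exact Or.inr ⟨g, fun v => by rw [oh_data hq, hg]⟩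
  rcases hgoal with ⟨c, hc⟩ | ⟨g, hg⟩
  · refine Or.inl ⟨c, fun v => ?_⟩
    have h1 := hc v
    rw [← key v, hA] at h1
    exact h1
  · refine Or.inr ⟨g, fun v => ?_⟩
    have h1 := hg v
    rw [← key v, hA] at h1
    exact h1

/-- the free bits -/
def sp (w : List Bool) {n k : ℕ} (g : (Fin k → Bool) × (Fin n → Bool)) : List Bool :=
  (w ++ List.ofFn g.1) ++ List.ofFn g.2

theorem length_sp (w : List Bool) {n k : ℕ} (g : (Fin k → Bool) × (Fin n → Bool)) :
    (sp w g).length = w.length + k + n := by
  unfold sp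
  rw [List.length_append, List.length_append, List.length_ofFn, List.length_ofFn]

theorem sp_inj (w : List Bool) {n k : ℕ} :
    Function.Injective (sp w : (Fin k → Bool) × (Fin n → Bool) → List Bool) := by
  intro g g' h
  unfold sp at h
  have h1 := List.append_inj h (by simp)
  exact Prod.ext (List.ofFn_injective (List.append_cancel_left h1.1)) (List.ofFn_injective h1.2)

/-- their positions -/
def fe (w : List Bool) {n k N : ℕ} (hN : 2 ^ (w.length + k + n + 2) ≤ N)
    (g : (Fin k → Bool) × (Fin n → Bool)) : Fin N :=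
  ⟨idx (false :: sp w g), (idx_lt_pow (B := w.length + k + n + 1) (by
    rw [List.length_cons, length_sp])).trans_le hN⟩

theorem fe_inj (w : List Bool) {n k N : ℕ} (hN : 2 ^ (w.length + k + n + 2) ≤ N) :
    Function.Injective (fe w hN) := by
  intro g g' h
  have h1 : idx (false :: sp w g) = idx (false :: sp w g') := congrArg Fin.val h
  exact sp_inj w (List.cons.inj (idx_inj h1)).2

open Classical in
/-- the number of the other strings -/
noncomputable def c2 (w : List Bool) (A : Oracle) (x : List Bool) : ℕ :=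
  ((strsOf x.length).filter (fun y => ¬ w <+: y ∧ A (false :: (y ++ x)) = true)).card

open Classical in
theorem cnt_split {w : List Bool} {n k N m : ℕ} (hk : w.length + k = n)
    (hN : 2 ^ (w.length + k + n + 2) ≤ N) (hN2 : 2 ^ (3 * m + 2) ≤ N) (a : Fin N → Bool)
    (v : (Fin k → Bool) × (Fin n → Bool) → Bool) (z : Fin m → Bool) (x : Fin n → Bool) :
    cnt (orc N (owr (pe hN2) (owr (fe w hN) a v) z)) (List.ofFn x) =
      c2 w (orc N a) (List.ofFn x) +
        (Finset.univ.filter (fun t : Fin k → Bool => v (t, x) = true)).card := by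
  obtain ⟨A, hA⟩ : ∃ A, A = orc N (owr (pe hN2) (owr (fe w hN) a v) z) := ⟨_, rfl⟩
  rw [← hA]
  have h1 : ∀ s : List Bool, A (false :: s) = orc N (owr (fe w hN) a v) (false :: s) := by
    intro s
    rw [hA]
    exact orc_off hN2 _ _ fun i h => by simp [ppos] at h
  have hon : ∀ t : Fin k → Bool, A (false :: ((w ++ List.ofFn t) ++ List.ofFn x)) = v (t, x) := by
    intro t
    rw [h1]
    unfold orc
    have h2 : idx (false :: ((w ++ List.ofFn t) ++ List.ofFn x)) < N := (fe w hN (t, x)).2
    rw [dif_pos h2]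
    exact owr_e (fe_inj w hN) a v (t, x)
  have hoff : ∀ y : List Bool, y.length = n → ¬ w <+: y →
      A (false :: (y ++ List.ofFn x)) = orc N a (false :: (y ++ List.ofFn x)) := by
    intro y hy hw
    rw [h1]
    unfold orc
    split_ifs with h2
    · refine owr_off _ _ ?_
      rintro ⟨g, hg⟩
      have h3 : idx (false :: sp w g) = idx (false :: (y ++ List.ofFn x)) := congrArg Fin.val hg
      have h4 := (List.cons.inj (idx_inj h3)).2
      unfold sp at h4
      have h5 := (List.append_inj' h4 (by simp)).1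
      exact hw (by rw [← h5]; exact List.prefix_append _ _)
    · rfl
  unfold cnt c2
  rw [← Finset.card_filter_add_card_filter_not (s := (strsOf (List.ofFn x).length).filter
    (fun y => A (false :: (y ++ List.ofFn x)) = true)) (fun y => ¬ w <+: y)]
  congr 1
  · rw [Finset.filter_filter]
    congr 1
    refine Finset.filter_congr fun y hy => ?_
    rw [mem_strsOf', List.length_ofFn] at hy
    constructor
    · rintro ⟨h2, h3⟩
      exact ⟨h3, by rw [← hoff y hy h3]; exact h2⟩
    · rintro ⟨h2, h3⟩
      exact ⟨by rw [hoff y hy h2]; exact h3, h2⟩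
  · rw [Finset.filter_filter]
    symm
    refine Finset.card_bij (fun t _ => w ++ List.ofFn t) ?_ ?_ ?_
    · intro t ht
      rw [Finset.mem_filter] at ht ⊢
      refine ⟨mem_strsOf'.2 ?_, ?_, ?_⟩
      · rw [List.length_append, List.length_ofFn, List.length_ofFn, hk]
      · rw [hon t]
        exact ht.2
      · rw [not_not]
        exact List.prefix_append _ _
    · intro t _ t' _ h
      exact List.ofFn_injective (List.append_cancel_left h)
    · intro y hy
      rw [Finset.mem_filter, mem_strsOf', List.length_ofFn, not_not] at hy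
      obtain ⟨h2, h3, u, rfl⟩ := hy
      rw [List.length_append] at h2
      have hu : u.length = k := by omega
      subst hu
      refine ⟨fun i => u.get i, ?_, ?_⟩
      · rw [Finset.mem_filter]
        refine ⟨Finset.mem_univ _, ?_⟩
        rw [← hon, List.ofFn_get]
        exact h3
      · rw [List.ofFn_get]

open Classical in
/-- the number of the right answers -/
noncomputable def AGh (W : Oracle) (M : Alg) (T n : ℕ) (h : List Bool) : ℝ :=
  ∑ x : Fin n → Bool, if (M.out (wd W T) (pairBits (List.ofFn x) h) = some [true] ↔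
    List.ofFn x ∈ LP W) then (1 : ℝ) else 0

open Classical in
theorem adv_prob {N n T ℓ' : ℕ} (M : Alg) (h : List Bool) (hTl : T ≤ 2 ^ ℓ') (hln : ℓ' ≤ n)
    (hp : M.p.eval (2 * n + 1 + h.length) < 2 ^ (n - ℓ')) (hN : 2 ^ (3 * n + 2) ≤ N) {δ : ℝ}
    (hδ : 0 < δ) : Ex unif (fun a : Fin N → Bool =>
      if (1 / 2 + δ) * 2 ^ n < AGh (orc N a) M T n h then (1 : ℝ) else 0) ≤
      Real.exp (-(2 * δ ^ 2 * 2 ^ n)) := by
  rw [Ex_owr (pe hN) (pe_inj hN), Ex_comm]
  refine (Ex_mono unif_nn (G := fun _ => Real.exp (-(2 * δ ^ 2 * 2 ^ n))) fun z => ?_).trans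
    (le_of_eq (Ex_const unif_sm _))
  obtain ⟨w, hw⟩ : ∃ w, w = (List.ofFn z).take ℓ' := ⟨_, rfl⟩
  have hwl : w.length = ℓ' := by
    rw [hw, List.length_take, List.length_ofFn]
    exact min_eq_left hln
  have hwk : w.length + (n - ℓ') = n := by omega
  have hN2 : 2 ^ (w.length + (n - ℓ') + n + 2) ≤ N :=
    (Nat.pow_le_pow_right (by norm_num) (by omega)).trans hN
  rw [Ex_owr (fe w hN2) (fe_inj w hN2)]
  refine (Ex_mono unif_nn (G := fun _ => Real.exp (-(2 * δ ^ 2 * 2 ^ n))) fun a => ?_).trans
    (le_of_eq (Ex_const unif_sm _))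
  have h1 := agree_exp (J := Fin (n - ℓ') → Bool) (X := Fin n → Bool)
    (fun x v => Fo M (pairBits (List.ofFn x) h)
      (wd (orc N (owr (pe hN) (owr (fe w hN2) a v) z)) T)) (t := M.p.eval (2 * n + 1 + h.length))
    (fun x => by
      have h2 := dtr_runG M (fun v => wd (orc N (owr (pe hN) (owr (fe w hN2) a v) z)) T)
        (fun q => dep_gen hTl hln (fe w hN2) (fe_inj w hN2) (fun g => sp w g) (fun g => rfl) hN a z
          (fun g => by rw [List.length_cons, length_sp]; omega) (fun g => by
            rw [← hw]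
            unfold sp
            rw [List.append_assoc]
            exact ((List.prefix_append _ _).isInfix).trans (List.suffix_cons _ _).isInfix) q)
        (pairBits (List.ofFn x) h) (M.p.eval (pairBits (List.ofFn x) h).length) []
      refine h2.mono (eval_mono _ ?_)
      rw [A2.length_pairBits, List.length_ofFn]
      omega)
    (by simpa using hp) (fun x => c2 w (orc N a) (List.ofFn x)) hδ
  have hX : (Fintype.card (Fin n → Bool) : ℝ) = 2 ^ n := by simp
  rw [hX] at h1
  refine le_trans (le_of_eq ?_) h1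
  congr 1
  funext v
  congr 1
  refine propext ?_
  have e : AGh (orc N (owr (pe hN) (owr (fe w hN2) a v) z)) M T n h =
      ∑ x : Fin n → Bool, (if (Fo M (pairBits (List.ofFn x) h)
        (wd (orc N (owr (pe hN) (owr (fe w hN2) a v) z)) T) = true ↔
        Odd (c2 w (orc N a) (List.ofFn x) +
          (Finset.univ.filter (fun t : Fin (n - ℓ') → Bool => v (t, x) = true)).card))
        then (1 : ℝ) else 0) := by
    unfold AGh
    refine Finset.sum_congr rfl fun x _ => ?_
    congr 1
    rw [mem_LP, cnt_split hwk hN2 hN a v z x]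
    unfold Fo
    rw [decide_eq_true_eq]
  rw [e]

end Pool.Agent.W908.HS
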