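import Pool.Agent.W908.Defs

/-! The class `⊕P`, and exponential hardness on average, relative to an oracle. -/

set_option autoImplicit false

namespace Pool.Agent.W908.HS

open Pool.Agent.NPC Pool.Agent.H620R2.Gauge

/-- The language `L` is in `⊕P` relative to `A`: membership of `x` is the parity of the number of
the certificates of length exactly `p |x|`, for a polynomial `p` and a polynomial-time verifier
relative to `A`. -/
def IsParityP (A : Oracle) (L : Set (List Bool)) : Prop :=
  ∃ (V : List Bool → List Bool) (p : Polynomial ℕ), IsFP A V ∧ ∀ x, x ∈ L ↔
    Odd (Set.ncard {y : List Bool | y.length = p.eval x.length ∧ V (pairBits x y) = [true]})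

/-- The language `L` is exponentially hard on average relative to `A`, even with advice: for every
`D` computable in polynomial time relative to `A` there is `d > 0` such that for every `n ≥ d` and
every advice string `h` of length at most `2 ^ (n / d)` the answer `D ⟨x, h⟩` is right for at most
the fraction `1 / 2 + (1 / 2) ^ (n / d)` of the strings `x` of length `n`. (With `h` an encoding of
a circuit with gates for `A` and `D` the evaluation of circuits: every circuit of size at most
exponential is right with probability exponentially close to `1 / 2`.) -/
def ExpHardOnAverage (A : Oracle) (L : Set (List Bool)) : Prop :=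
  ∀ D : List Bool → List Bool, IsFP A D → ∃ d : ℕ, 0 < d ∧ ∀ n : ℕ, d ≤ n →
    ∀ h : List Bool, h.length ≤ 2 ^ (n / d) →
      (Set.ncard {x : Fin n → Bool | (D (pairBits (List.ofFn x) h) = [true] ↔
        List.ofFn x ∈ L)} : ℝ) ≤ (1 / 2 + (1 / 2) ^ (n / d)) * 2 ^ n

end Pool.Agent.W908.HS
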