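import Pool.Agent.W908.H.H13
import Pool.Agent.W908.H.HDefs

/-! A language in `⊕P` that is hard on average: the rare events. -/

set_option autoImplicit false

namespace Pool.Agent.W908.HS

open Pool.Agent.NPC Pool.Agent.H620R2.Gauge Pool.Agent.H622R2 Finset H568R2 Pool.Agent.H676
open Pool.Agent.W908.SP (mem_strsOf' card_strsOf' unif_nn unif_sm)
open Pool.Agent.W908.PS (Rare pre_local qb qb_spec out_congr poly_le_pow)

/-- the questions -/
def pqs (v : List Bool) : List (List Bool) := [false :: ((unpair v).2 ++ (unpair v).1)]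

theorem poly_pqs : Poly pqs :=
  Poly.cons (Poly.cons (NPC.Poly.const false)
    (Poly.append (Poly.snd poly_unpair) (Poly.fst poly_unpair))) (NPC.Poly.const [])

theorem isParityP_LP (W : Oracle) : IsParityP (OH W) (LP W) := by
  refine ⟨fun v => (pqs v).map (OH W), Polynomial.X,
    IsFP.tt (H := fun p => p.2) poly_pqs (Poly.snd Poly.id), fun x => ?_⟩
  unfold LP
  rw [Set.mem_ofPred_eq]
  have h : {y : List Bool | y.length = x.length ∧ W (false :: (y ++ x)) = true} =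
      {y : List Bool | y.length = (Polynomial.X : Polynomial ℕ).eval x.length ∧
        (pqs (pairBits x y)).map (OH W) = [true]} := by
    ext y
    have h1 : OH W (false :: (y ++ x)) = W (false :: (y ++ x)) := congrFun (fr_OH W) (y ++ x)
    simp only [Set.mem_ofPred_eq, Polynomial.eval_X, pqs, unpair_pairBits, List.map_cons,
      List.map_nil, List.cons.injEq, and_true, h1]
  rw [h]

theorem LP_local {W W' : Oracle} {x : List Bool} {B : ℕ} (hB : 2 * x.length + 1 ≤ B)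
    (h : ∀ q : List Bool, q.length ≤ B → W q = W' q) : x ∈ LP W ↔ x ∈ LP W' := by
  rw [mem_LP, mem_LP]
  have : cnt W x = cnt W' x := by
    unfold cnt
    congr 1
    refine Finset.filter_congr fun y hy => ?_
    rw [mem_strsOf'] at hy
    rw [h _ (by rw [List.length_cons, List.length_append]; omega)]
  rw [this]

theorem AGh_local {W W' : Oracle} {M : Alg} {T n : ℕ} {h : List Bool} (hT : 2 * n + 1 ≤ T)
    (hW : ∀ q : List Bool, q.length ≤ 3 * T + 2 → W q = W' q) : AGh W M T n h = AGh W' M T n h := by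
  classical
  unfold AGh
  refine Finset.sum_congr rfl fun x _ => ?_
  have h1 : List.ofFn x ∈ LP W ↔ List.ofFn x ∈ LP W' :=
    LP_local (B := 3 * T + 2) (by rw [List.length_ofFn]; omega) hW
  rw [wd_local hW]
  simp only [h1]

theorem big_d (Q : Polynomial ℕ) : ∃ d : ℕ, 16 ≤ d ∧ ∀ n, d ≤ n →
    Q.eval (2 * n + 1 + 2 ^ (n / d)) ≤ 2 ^ (n / 4) := by
  obtain ⟨D, hD⟩ : ∃ D, D = Q.natDegree := ⟨_, rfl⟩
  obtain ⟨e₀, he₀⟩ := poly_le_pow (Polynomial.C (Q.eval 1) *
    (Polynomial.C 32 * Polynomial.X + Polynomial.C 4) ^ D)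
  obtain ⟨e, he⟩ : ∃ e, e = e₀ + D + 2 := ⟨_, rfl⟩
  have h1 := he₀ e (by omega)
  simp only [Polynomial.eval_mul, Polynomial.eval_C, Polynomial.eval_pow, Polynomial.eval_add,
    Polynomial.eval_X] at h1
  refine ⟨8 * e, by omega, fun n hn => ?_⟩
  obtain ⟨m, hm⟩ : ∃ m, m = n / (8 * e) := ⟨_, rfl⟩
  rw [← hm]
  have h8 : 0 < 8 * e := by omega
  have hm1 : 1 ≤ m := by rw [hm]; exact (Nat.one_le_div_iff h8).2 hn
  have hm2 : 8 * e * m ≤ n := by rw [hm]; exact Nat.mul_div_le n _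
  have hm3 : n < 8 * e * (m + 1) := by rw [hm]; exact Nat.lt_mul_div_succ n h8
  have hm4 : n ≤ 16 * e * m := by nlinarith
  have hm5 : m ≤ 2 ^ m := Nat.lt_two_pow_self.le
  have hy : 2 * n + 1 + 2 ^ m ≤ (32 * e + 4) * 2 ^ m := by
    have : 32 * e * m ≤ 32 * e * 2 ^ m := Nat.mul_le_mul_left _ hm5
    have h2 : 1 ≤ 2 ^ m := Nat.one_le_two_pow
    nlinarith
  have h2 := Y_poly_le Q (2 * n + 1 + 2 ^ m) (by omega)
  rw [← hD] at h2
  refine h2.trans ?_
  calc Q.eval 1 * (2 * n + 1 + 2 ^ m) ^ D ≤ Q.eval 1 * ((32 * e + 4) * 2 ^ m) ^ D :=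
        Nat.mul_le_mul_left _ (Nat.pow_le_pow_left hy _)
    _ = Q.eval 1 * (32 * e + 4) ^ D * 2 ^ (m * D) := by rw [mul_pow, ← pow_mul]; ring
    _ ≤ 2 ^ e * 2 ^ (m * D) := Nat.mul_le_mul_right _ h1
    _ = 2 ^ (e + m * D) := by rw [pow_add]
    _ ≤ 2 ^ (n / 4) := by
        apply Nat.pow_le_pow_right (by norm_num)
        have h3 : m * D ≤ m * e := Nat.mul_le_mul_left _ (by omega)
        have h4 : e ≤ m * e := Nat.le_mul_of_pos_left _ hm1
        rw [Nat.le_div_iff_mul_le (by norm_num)]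
        nlinarith

/-- the language is exponentially hard on average for the algorithm, with advice -/
def GoodX (M : Alg) (W : Oracle) : Prop :=
  ∃ d : ℕ, 0 < d ∧ ∀ n, d ≤ n → ∀ h : List Bool, h.length ≤ 2 ^ (n / d) →
    (Set.ncard {x : Fin n → Bool | (M.out (OH W) (pairBits (List.ofFn x) h) = some [true] ↔
      List.ofFn x ∈ LP W)} : ℝ) ≤ (1 / 2 + (1 / 2) ^ (n / d)) * 2 ^ n

theorem ncard_eq_AGh {W : Oracle} {M : Alg} {T n : ℕ} {h : List Bool}
    (hT : (qb M).eval (2 * n + 1 + h.length) < T) :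
    (Set.ncard {x : Fin n → Bool | (M.out (OH W) (pairBits (List.ofFn x) h) = some [true] ↔
      List.ofFn x ∈ LP W)} : ℝ) = AGh W M T n h := by
  classical
  unfold AGh
  rw [Finset.sum_boole, Set.ncard_eq_toFinset_card']
  congr 2
  ext x
  have hl : (pairBits (List.ofFn x) h).length = 2 * n + 1 + h.length := by
    rw [A2.length_pairBits, List.length_ofFn]
    omega
  have h1 := (out_congr M (O := OH W) (O' := wd W T) (x := pairBits (List.ofFn x) h) fun q hq => by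
    refine (OH_eq ?_).symm
    have := qb_spec M _ _ q hq
    rw [hl] at this
    omega).1
  simp [h1]

open Classical in
theorem x_event {n m K T N : ℕ} (M : Alg) (hK : 0 < K) (hn : 1 ≤ n) (hm : 16 * m ≤ n)
    (hT : T ≤ 2 ^ (n / 4)) (hp : M.p.eval (2 * n + 1 + 2 ^ m) ≤ 2 ^ (n / 4))
    (hH : 2 * 2 ^ m ≤ 2 ^ (n / 4)) (hQ : K * ((n + 1) * (n + 2)) ≤ 2 ^ (n / 4))
    (hN : 2 ^ (3 * n + 2) ≤ N) :
    Ex unif (fun a : Fin N → Bool => if ∃ c ≤ 2 ^ m, ∃ h ∈ strsOf c,
      (1 / 2 + (1 / 2) ^ m) * 2 ^ n < AGh (orc N a) M T n h then (1 : ℝ) else 0) ≤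
      1 / (K * ((n + 1) * (n + 2))) := by
  obtain ⟨H, hHd⟩ : ∃ H, H = 2 ^ m := ⟨_, rfl⟩
  rw [← hHd] at hH hp ⊢
  obtain ⟨δ, hδ⟩ : ∃ δ : ℝ, δ = (1 / 2) ^ m := ⟨_, rfl⟩
  have hδ0 : 0 < δ := by rw [hδ]; positivity
  rw [← hδ]
  have h1 : ∀ a : Fin N → Bool, (if ∃ c ≤ H, ∃ h ∈ strsOf c,
      (1 / 2 + δ) * 2 ^ n < AGh (orc N a) M T n h then (1 : ℝ) else 0) ≤
      ∑ c ∈ range (H + 1), ∑ h ∈ strsOf c,
        if (1 / 2 + δ) * 2 ^ n < AGh (orc N a) M T n h then (1 : ℝ) else 0 := by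
    intro a
    have hnn : ∀ h : List Bool, (0 : ℝ) ≤ if (1 / 2 + δ) * 2 ^ n < AGh (orc N a) M T n h
      then (1 : ℝ) else 0 := fun h => by split_ifs <;> norm_num
    by_cases hE : ∃ c ≤ H, ∃ h ∈ strsOf c, (1 / 2 + δ) * 2 ^ n < AGh (orc N a) M T n h
    · rw [if_pos hE]
      obtain ⟨c, hc, h, hh, hj⟩ := hE
      refine le_trans ?_ (Finset.single_le_sum (f := fun c => ∑ h ∈ strsOf c,
        if (1 / 2 + δ) * 2 ^ n < AGh (orc N a) M T n h then (1 : ℝ) else 0)
        (fun c _ => Finset.sum_nonneg fun h _ => hnn h)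
        (Finset.mem_range.2 (by omega : c < H + 1)))
      refine le_trans ?_ (Finset.single_le_sum (f := fun h =>
        if (1 / 2 + δ) * 2 ^ n < AGh (orc N a) M T n h then (1 : ℝ) else 0)
        (fun h _ => hnn h) hh)
      rw [if_pos hj]
    · rw [if_neg hE]
      exact Finset.sum_nonneg fun c _ => Finset.sum_nonneg fun h _ => hnn h
  refine (Ex_mono unif_nn h1).trans ?_
  rw [Ex_sum]
  have hn4 : n / 4 + 1 ≤ n - n / 4 := by omega
  have h2 : ∀ c ∈ range (H + 1), Ex unif (fun a : Fin N → Bool => ∑ h ∈ strsOf c,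
      if (1 / 2 + δ) * 2 ^ n < AGh (orc N a) M T n h then (1 : ℝ) else 0) ≤
      2 ^ H * Real.exp (-(2 * δ ^ 2 * 2 ^ n)) := by
    intro c hc
    rw [Finset.mem_range, Nat.lt_succ_iff] at hc
    rw [Ex_sum]
    have h3 : ∀ h ∈ strsOf c, Ex unif (fun a : Fin N → Bool =>
        if (1 / 2 + δ) * 2 ^ n < AGh (orc N a) M T n h then (1 : ℝ) else 0) ≤
        Real.exp (-(2 * δ ^ 2 * 2 ^ n)) := by
      intro h hh
      rw [mem_strsOf'] at hh
      refine adv_prob M h hT (by omega) ?_ hN hδ0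
      have h4 : M.p.eval (2 * n + 1 + h.length) ≤ M.p.eval (2 * n + 1 + H) :=
        eval_mono _ (by omega)
      have h5 : 2 ^ (n / 4) < 2 ^ (n - n / 4) := Nat.pow_lt_pow_right (by norm_num) (by omega)
      omega
    refine (Finset.sum_le_sum h3).trans ?_
    rw [Finset.sum_const, nsmul_eq_mul, card_strsOf']
    apply mul_le_mul_of_nonneg_right _ (Real.exp_pos _).le
    push_cast
    exact pow_le_pow_right₀ (by norm_num) hc
  refine (Finset.sum_le_sum h2).trans ?_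
  rw [Finset.sum_const, Finset.card_range, nsmul_eq_mul]
  have h3 : ((H + 1 : ℕ) : ℝ) ≤ 2 ^ H := by
    have : H + 1 ≤ 2 ^ H := Nat.lt_two_pow_self
    exact_mod_cast this
  have h4 : (2 : ℝ) ^ H ≤ Real.exp H := by
    have h5 : (2 : ℝ) ≤ Real.exp 1 := by
      have := Real.add_one_le_exp (1 : ℝ)
      linarith
    calc (2 : ℝ) ^ H ≤ Real.exp 1 ^ H := pow_le_pow_left₀ (by norm_num) h5 _
      _ = Real.exp H := by rw [← Real.exp_nat_mul, mul_one]
  have hexp0 := (Real.exp_pos (-(2 * δ ^ 2 * 2 ^ n))).le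
  have hH0 := (Real.exp_pos (H : ℝ)).le
  have h2n : (0 : ℝ) ≤ 2 ^ H := by positivity
  obtain ⟨E, hE⟩ : ∃ E : ℝ, E = 2 ^ (n / 4) := ⟨_, rfl⟩
  have hE1 : 0 < E := by rw [hE]; positivity
  have h5 : 2 * E ≤ δ ^ 2 * 2 ^ n := by
    have e1 : δ ^ 2 * 2 ^ n = 2 ^ (n - 2 * m) := by
      rw [hδ, ← pow_mul, mul_comm m 2, one_div, inv_pow, inv_mul_eq_div,
        div_eq_iff (by positivity), ← pow_add]
      congr 1
      omega
    rw [e1, hE, ← pow_succ']
    exact pow_le_pow_right₀ (by norm_num) (by omega)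
  have h6 : (2 * H : ℝ) ≤ E := by
    rw [hE]
    exact_mod_cast hH
  calc ((H + 1 : ℕ) : ℝ) * (2 ^ H * Real.exp (-(2 * δ ^ 2 * 2 ^ n)))
      ≤ Real.exp H * (Real.exp H * Real.exp (-(2 * δ ^ 2 * 2 ^ n))) := by
        apply mul_le_mul (h3.trans h4) _ (by positivity) hH0
        exact mul_le_mul_of_nonneg_right h4 hexp0
    _ = Real.exp (H + (H + -(2 * δ ^ 2 * 2 ^ n))) := by rw [← Real.exp_add, ← Real.exp_add]
    _ ≤ Real.exp (-E) := by
        apply Real.exp_le_exp.2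
        nlinarith
    _ ≤ 1 / (K * ((n + 1) * (n + 2))) := by
        rw [Real.exp_neg, ← one_div]
        apply one_div_le_one_div_of_le
        · have : (0 : ℝ) < K := by exact_mod_cast hK
          positivity
        · have h7 : (K : ℝ) * ((n + 1) * (n + 2)) ≤ E := by
            rw [hE]
            exact_mod_cast hQ
          have := Real.add_one_le_exp E
          linarith

theorem rare_goodX (M : Alg) : Rare {W | ¬ GoodX M W} := by
  classical
  intro K hK
  obtain ⟨Q, hQ⟩ : ∃ Q : Polynomial ℕ, Q = (qb M + 2 * Polynomial.X + 2) + M.p +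
      2 * Polynomial.X + Polynomial.C K * ((Polynomial.X + 1) * (Polynomial.X + 2)) := ⟨_, rfl⟩
  obtain ⟨d, hd16, hd⟩ := big_d Q
  have hQe : ∀ y, Q.eval y = ((qb M).eval y + 2 * y + 2) + M.p.eval y + 2 * y +
      K * ((y + 1) * (y + 2)) := by
    intro y
    rw [hQ]
    simp
  obtain ⟨T, hT⟩ : ∃ T : ℕ → ℕ, T = fun n => (qb M).eval (2 * n + 1 + 2 ^ (n / d)) +
    2 * (2 * n + 1 + 2 ^ (n / d)) + 2 := ⟨_, rfl⟩
  have hTe : ∀ n, T n = (qb M).eval (2 * n + 1 + 2 ^ (n / d)) +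
    2 * (2 * n + 1 + 2 ^ (n / d)) + 2 := fun n => by rw [hT]
  refine ⟨fun n => 2 ^ (3 * T n + 2 + 1), fun n a => d ≤ n ∧ ∃ c ≤ 2 ^ (n / d), ∃ h ∈ strsOf c,
      (1 / 2 + (1 / 2) ^ (n / d)) * 2 ^ n < AGh (orc _ a) M (T n) n h, fun n => ?_,
      fun W hW => ?_⟩
  · by_cases hn : d ≤ n
    · have h := hd n hn
      rw [hQe] at h
      have hpos : 0 < 2 ^ (n / d) := by positivity
      obtain ⟨y, hy⟩ : ∃ y, y = 2 * n + 1 + 2 ^ (n / d) := ⟨_, rfl⟩
      have hTn := hTe n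
      have hyn : n ≤ y := by omega
      have hy2 : 2 ^ (n / d) ≤ y := by omega
      rw [← hy] at h hTn
      have hK2 : K * ((n + 1) * (n + 2)) ≤ K * ((y + 1) * (y + 2)) := by
        apply Nat.mul_le_mul_left
        apply Nat.mul_le_mul <;> omega
      have hTy : 2 * y + 2 ≤ T n := by omega
      have h1 := x_event (N := 2 ^ (3 * T n + 2 + 1)) (n := n) (m := n / d) (T := T n) M hK
        (by omega) (by
          have : n / d ≤ n / 16 := Nat.div_le_div_left hd16 (by norm_num)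
          omega) (by omega) (by rw [← hy]; omega) (by omega) (by omega)
        (Nat.pow_le_pow_right (by norm_num) (by omega))
      simp only [hn, true_and]
      exact h1
    · simp only [hn, false_and, if_false]
      rw [Ex_const unif_sm]
      positivity
  · by_contra hcon
    push Not at hcon
    refine hW ⟨d, by omega, fun n hn h hh => ?_⟩
    have hTn := hTe n
    have h0 : (qb M).eval (2 * n + 1 + h.length) ≤ (qb M).eval (2 * n + 1 + 2 ^ (n / d)) :=
      eval_mono _ (by omega)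
    rw [ncard_eq_AGh (T := T n) (by omega)]
    have h1 := hcon n hn h.length hh h (mem_strsOf _)
    rw [AGh_local (W' := W) (by omega) (fun q hq => pre_local W le_rfl hq)] at h1
    exact h1

end Pool.Agent.W908.HS
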