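import Pool.Agent.W908.H.H1

/-! Noise on a random set of bits; the secrets cannot be guessed. -/

set_option autoImplicit false

namespace Pool.Agent.W908.HS

open Pool.Agent.NPC Pool.Agent.H620R2.Gauge Finset H568R2 Pool.Agent.H676
open Pool.Agent.W908.SP (Fo Qo bv unif_nn unif_sm Ex_owr Ex_unif_av idx_inj sn sens)
open Pool.Agent.W908.PS (pwd ppos ppos_inj length_ppos length_pwd idx_lt_pow Ex_comm)
open Pool.Agent.H591R3.PHG.Proj (owr owr_e owr_off owr_owr)

section

variable {I : Type} [Fintype I] [DecidableEq I]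

open Classical in
/-- the bits in `S` are replaced -/
noncomputable def mix (S : I → Prop) (a b : I → Bool) : I → Bool := fun i => if S i then b i else a i

omit [Fintype I] [DecidableEq I] in
theorem mix_mix (S : I → Prop) (a b : I → Bool) : mix S (mix S a b) (mix S b a) = a := by
  classical
  funext i
  unfold mix
  split_ifs <;> rfl

/-- exchange of the bits in `S` -/
noncomputable def mixE (S : I → Prop) : (I → Bool) × (I → Bool) ≃ (I → Bool) × (I → Bool) where
  toFun p := (mix S p.1 p.2, mix S p.2 p.1)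
  invFun p := (mix S p.1 p.2, mix S p.2 p.1)
  left_inv p := Prod.ext (mix_mix S p.1 p.2) (mix_mix S p.2 p.1)
  right_inv p := Prod.ext (mix_mix S p.1 p.2) (mix_mix S p.2 p.1)

theorem Ex_mix (S : I → Prop) (Φ : (I → Bool) → ℝ) :
    Ex unif (fun a => Ex unif (fun b => Φ (mix S a b))) = Ex unif Φ := by
  have h1 : Ex unif (fun a => Ex unif (fun b => Φ (mix S a b))) =
      (∑ p : (I → Bool) × (I → Bool), Φ (mix S p.1 p.2)) / 2 ^ Fintype.card I /
        2 ^ Fintype.card I := by
    rw [Ex_unif_av, Fintype.sum_prod_type]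
    congr 1
    rw [Finset.sum_div]
    exact Finset.sum_congr rfl fun a _ => Ex_unif_av _
  have h2 : ∑ p : (I → Bool) × (I → Bool), Φ (mix S p.1 p.2) =
      ∑ p : (I → Bool) × (I → Bool), Φ p.1 :=
    (mixE S).sum_comp fun p => Φ p.1
  have h3 : ∑ p : (I → Bool) × (I → Bool), Φ p.1 = 2 ^ Fintype.card I * ∑ a, Φ a := by
    rw [Fintype.sum_prod_type]
    simp only [Finset.sum_const, Finset.card_univ, nsmul_eq_mul, Fintype.card_fun,
      Fintype.card_bool]
    rw [← Finset.mul_sum]
    push_cast
    rfl
  rw [h1, h2, h3, Ex_unif_av]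
  have : (2 : ℝ) ^ Fintype.card I ≠ 0 := by positivity
  field_simp

open Classical in
/-- the influence of a bit -/
noncomputable def inf (g : (I → Bool) → Bool) (i : I) : ℝ :=
  Ex unif (fun a => if g (flp i a) ≠ g a then (1 : ℝ) else 0)

theorem inf_nonneg (g : (I → Bool) → Bool) (i : I) : 0 ≤ inf g i := by
  classical
  unfold inf
  have h := Ex_mono (w := unif) unif_nn (F := fun _ : I → Bool => (0 : ℝ))
    (G := fun a => if g (flp i a) ≠ g a then (1 : ℝ) else 0) (fun a => by
      split_ifs <;> norm_num)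
  rwa [Ex_const unif_sm] at h

theorem sens_eq (g : (I → Bool) → Bool) : sens g = ∑ i, inf g i := by
  classical
  unfold sens inf sn
  rw [Ex_sum]

open Classical in
/-- The noise on the bits in `S`. -/
theorem noise (g : (I → Bool) → Bool) (S : Finset I) :
    Ex unif (fun a => Ex unif (fun b => if g (mix (· ∈ S) a b) ≠ g a then (1 : ℝ) else 0)) ≤
      ∑ i ∈ S, inf g i := by
  induction S using Finset.induction_on with
  | empty =>
    rw [Finset.sum_empty]
    have e : (fun a : I → Bool => Ex unif (fun b => if g (mix (· ∈ (∅ : Finset I)) a b) ≠ g a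
        then (1 : ℝ) else 0)) = fun _ => 0 := by
      funext a
      have e2 : (fun b : I → Bool => if g (mix (· ∈ (∅ : Finset I)) a b) ≠ g a
          then (1 : ℝ) else 0) = fun _ => 0 := by
        funext b
        have e3 : mix (· ∈ (∅ : Finset I)) a b = a := by
          funext i
          simp [mix]
        rw [e3, if_neg (by simp)]
      rw [e2, Ex_const unif_sm]
    rw [e, Ex_const unif_sm]
  | insert i S hi ih =>
    rw [Finset.sum_insert hi, add_comm]
    have h1 : ∀ a b : I → Bool, (if g (mix (· ∈ insert i S) a b) ≠ g a then (1 : ℝ) else 0) ≤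
        (if g (mix (· ∈ S) a b) ≠ g a then (1 : ℝ) else 0) +
          (if g (flp i (mix (· ∈ S) a b)) ≠ g (mix (· ∈ S) a b) then (1 : ℝ) else 0) := by
      intro a b
      have h2 : mix (· ∈ insert i S) a b = mix (· ∈ S) a b ∨
          mix (· ∈ insert i S) a b = flp i (mix (· ∈ S) a b) := by
        by_cases hb : b i = a i
        · left
          funext j
          unfold mix
          by_cases hj : j = i
          · subst hj
            rw [if_pos (Finset.mem_insert_self _ _), if_neg hi, hb]
          · by_cases hS : j ∈ S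
            · rw [if_pos (Finset.mem_insert_of_mem hS), if_pos hS]
            · rw [if_neg (fun h => (Finset.mem_insert.1 h).elim hj hS), if_neg hS]
        · right
          funext j
          by_cases hj : j = i
          · subst hj
            have e1 : mix (· ∈ insert j S) a b j = b j := by
              unfold mix
              rw [if_pos (Finset.mem_insert_self _ _)]
            have e2 : mix (· ∈ S) a b j = a j := by
              unfold mix
              rw [if_neg hi]
            have e3 : flp j (mix (· ∈ S) a b) j = !(mix (· ∈ S) a b j) := by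
              simp [flp]
            rw [e1, e3, e2]
            cases h1 : b j <;> cases h2 : a j <;> simp_all
          · have e3 : flp i (mix (· ∈ S) a b) j = mix (· ∈ S) a b j := by
              simp [flp, hj]
            rw [e3]
            unfold mix
            by_cases hS : j ∈ S
            · rw [if_pos (Finset.mem_insert_of_mem hS), if_pos hS]
            · rw [if_neg (fun h => (Finset.mem_insert.1 h).elim hj hS), if_neg hS]
      by_cases h3 : g (mix (· ∈ S) a b) ≠ g a
      · rw [if_pos h3]
        have h4 : (if g (mix (· ∈ insert i S) a b) ≠ g a then (1 : ℝ) else 0) ≤ 1 := by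
          split_ifs <;> norm_num
        have h5 : (0 : ℝ) ≤ (if g (flp i (mix (· ∈ S) a b)) ≠ g (mix (· ∈ S) a b)
          then (1 : ℝ) else 0) := by
          split_ifs <;> norm_num
        linarith
      · rw [if_neg h3, zero_add]
        rw [not_not] at h3
        rcases h2 with h2 | h2
        · rw [h2, if_neg (not_not.2 h3)]
          split_ifs <;> norm_num
        · rw [h2, ← h3]
    refine (Ex_mono unif_nn fun a => Ex_mono unif_nn fun b => h1 a b).trans ?_
    simp only [Ex_add]
    refine add_le_add ih (le_of_eq ?_)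
    exact Ex_mix (· ∈ S) (fun v => if g (flp i v) ≠ g v then (1 : ℝ) else 0)

theorem Ex_eq_one (v : I → Bool) [∀ z : I → Bool, Decidable (∀ i, z i = v i)] :
    Ex unif (fun z : I → Bool => if ∀ i, z i = v i then (1 : ℝ) else 0) =
      (1 / 2) ^ Fintype.card I := by
  rw [Ex_unif_av]
  have h : ∑ z : I → Bool, (if ∀ i, z i = v i then (1 : ℝ) else 0) = 1 := by
    rw [Finset.sum_eq_single v]
    · simp
    · intro z _ hz
      rw [if_neg fun h => hz (funext h)]
    · intro h
      exact absurd (Finset.mem_univ _) h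
  rw [h, one_div, one_div, inv_pow]

end

open Classical in
/-- random bits cannot be guessed -/
theorem guess {N Δ : ℕ} (e : Fin Δ → Fin N) (he : Function.Injective e) (v : Fin Δ → Bool)
    (h : (Fin N → Bool) → ℝ) (hinv : ∀ a z, h (owr e a z) = h a) :
    Ex unif (fun a : Fin N → Bool => h a * (if ∀ i, a (e i) = v i then (1 : ℝ) else 0)) =
      (1 / 2) ^ Δ * Ex unif h := by
  rw [Ex_owr e he]
  have h1 : ∀ a : Fin N → Bool, Ex unif (fun z : Fin Δ → Bool => h (owr e a z) *
      (if ∀ i, owr e a z (e i) = v i then (1 : ℝ) else 0)) = (1 / 2) ^ Δ * h a := by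
    intro a
    simp only [hinv, owr_e he]
    rw [Ex_smul, Ex_eq_one, Fintype.card_fin, mul_comm]
  simp only [h1]
  rw [Ex_smul]

/-- the function does not depend on the later bits of the secrets -/
def Inv {N : ℕ} (ℓ' : ℕ) (h : (Fin N → Bool) → ℝ) : Prop :=
  ∀ a a' : Fin N → Bool, cut (pwd (orc N a)) ℓ' = cut (pwd (orc N a')) ℓ' →
    (∀ s, orc N a (false :: s) = orc N a' (false :: s)) → h a = h a'

theorem ppos_head (m i : ℕ) : ∃ s, ppos m i = true :: s := by
  unfold ppos
  cases m <;> exact ⟨_, rfl⟩

theorem inv_owr {N ℓ' ℓ m : ℕ} {h : (Fin N → Bool) → ℝ} (hI : Inv ℓ' h)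
    (e : Fin (ℓ - ℓ') → Fin N) (he : ∀ i, (e i).val = idx (ppos m (ℓ' + i)))
    (a : Fin N → Bool) (z : Fin (ℓ - ℓ') → Bool) : h (owr e a z) = h a := by
  have key : ∀ s : List Bool, (∀ i : Fin (ℓ - ℓ'), s ≠ ppos m (ℓ' + i)) →
      orc N (owr e a z) s = orc N a s := by
    intro s hs
    unfold orc
    split_ifs with h1
    · refine owr_off _ _ ?_
      rintro ⟨i, hi⟩
      have h2 := congrArg Fin.val hi
      rw [he] at h2
      exact hs i (idx_inj h2).symm
    · rfl
  refine hI _ _ ?_ fun s => key _ fun i => ?_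
  · funext m'
    unfold cut pwd
    rw [← List.map_take, ← List.map_take]
    refine List.map_congr_left fun j hj => key _ fun i h2 => ?_
    have h3 := (ppos_inj h2).2
    rw [List.take_range, List.mem_range] at hj
    have := lt_of_lt_of_le hj (min_le_left _ _)
    omega
  · obtain ⟨t, ht⟩ := ppos_head m (ℓ' + i)
    rw [ht]
    simp

theorem pwd_get (W : Oracle) (m i : ℕ) (h : i < (pwd W m).length) : (pwd W m)[i] = W (ppos m i) := by
  simp only [pwd, List.getElem_map, List.getElem_range]

open Classical in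
/-- The protection cannot be foreseen. -/
theorem star_prob {N B ℓ ℓ' : ℕ} (hN : 2 ^ (3 * B + 3) ≤ N) (hℓ : ℓ' ≤ ℓ)
    {s : List Bool} (hs : s.length ≤ B) {h : (Fin N → Bool) → ℝ} (h0 : ∀ a, 0 ≤ h a)
    (hI : Inv ℓ' h) :
    Ex unif (fun a : Fin N → Bool => h a * (if Star (pwd (orc N a)) ℓ s then (1 : ℝ) else 0)) ≤
      ((B : ℝ) + 1) ^ 2 * ((1 / 2) ^ (ℓ - ℓ') * Ex unif h) := by
  have hpos : ∀ m ∈ (range (B + 1)).filter (fun m => ℓ ≤ m), ∀ i : Fin (ℓ - ℓ'),
      idx (ppos m (ℓ' + i)) < N := by
    intro m hm i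
    rw [Finset.mem_filter, Finset.mem_range] at hm
    refine (idx_lt_pow (B := 3 * B + 2) ?_).trans_le hN
    rw [length_ppos]
    have := i.2
    omega
  have hstep : ∀ m ∈ (range (B + 1)).filter (fun m => ℓ ≤ m), ∀ j : ℕ,
      Ex unif (fun a : Fin N → Bool => h a * (if ∀ i : Fin (ℓ - ℓ'),
        orc N a (ppos m (ℓ' + i)) = (s.drop j).getD (ℓ' + i) false then (1 : ℝ) else 0)) =
      (1 / 2) ^ (ℓ - ℓ') * Ex unif h := by
    intro m hm j
    obtain ⟨e, he⟩ : ∃ e : Fin (ℓ - ℓ') → Fin N, e = fun i => ⟨idx (ppos m (ℓ' + i)),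
      hpos m hm i⟩ := ⟨_, rfl⟩
    have hev : ∀ i, (e i).val = idx (ppos m (ℓ' + i)) := by
      intro i
      rw [he]
    have hei : Function.Injective e := by
      intro i i' hii
      have h1 := congrArg Fin.val hii
      rw [hev, hev] at h1
      have h2 := (ppos_inj (idx_inj h1)).2
      exact Fin.ext (by omega)
    have h1 := guess e hei (fun i => (s.drop j).getD (ℓ' + i) false) h
      (fun a z => inv_owr hI e hev a z)
    rw [← h1]
    congr 1
    funext a
    congr 1
    have e2 : (∀ i : Fin (ℓ - ℓ'), orc N a (ppos m (ℓ' + i)) =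
        (s.drop j).getD (ℓ' + i) false) ↔ ∀ i, a (e i) = (s.drop j).getD (ℓ' + i) false := by
      refine forall_congr' fun i => ?_
      have e3 : orc N a (ppos m (ℓ' + i)) = a (e i) := by
        unfold orc
        rw [dif_pos (hpos m hm i), he]
      rw [e3]
    simp only [e2]
  have hpt : ∀ a : Fin N → Bool, h a * (if Star (pwd (orc N a)) ℓ s then (1 : ℝ) else 0) ≤
      ∑ m ∈ (range (B + 1)).filter (fun m => ℓ ≤ m), ∑ j ∈ range (B + 1),
        h a * (if ∀ i : Fin (ℓ - ℓ'), orc N a (ppos m (ℓ' + i)) =
          (s.drop j).getD (ℓ' + i) false then (1 : ℝ) else 0) := by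
    intro a
    have hnn : ∀ m j, 0 ≤ h a * (if ∀ i : Fin (ℓ - ℓ'), orc N a (ppos m (ℓ' + i)) =
          (s.drop j).getD (ℓ' + i) false then (1 : ℝ) else 0) := by
      intro m j
      refine mul_nonneg (h0 a) ?_
      split_ifs <;> norm_num
    by_cases hS : Star (pwd (orc N a)) ℓ s
    · obtain ⟨m, h1, h2, u, v, huv⟩ := hS
      have hm : m ∈ (range (B + 1)).filter (fun m => ℓ ≤ m) := by
        rw [Finset.mem_filter, Finset.mem_range]
        omega
      have hu : u.length ∈ range (B + 1) := by
        rw [Finset.mem_range]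
        have h3 := congrArg List.length huv
        rw [List.length_append, List.length_append] at h3
        omega
      refine le_trans ?_ (Finset.single_le_sum (f := fun m => ∑ j ∈ range (B + 1),
        h a * (if ∀ i : Fin (ℓ - ℓ'), orc N a (ppos m (ℓ' + i)) =
          (s.drop j).getD (ℓ' + i) false then (1 : ℝ) else 0))
        (fun m _ => Finset.sum_nonneg fun j _ => hnn m j) hm)
      refine le_trans ?_ (Finset.single_le_sum (f := fun j =>
        h a * (if ∀ i : Fin (ℓ - ℓ'), orc N a (ppos m (ℓ' + i)) =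
          (s.drop j).getD (ℓ' + i) false then (1 : ℝ) else 0))
        (fun j _ => hnn m j) hu)
      have hb : ∀ i : Fin (ℓ - ℓ'), orc N a (ppos m (ℓ' + i)) =
          (s.drop u.length).getD (ℓ' + i) false := by
        intro i
        have hi := i.2
        have h3 : s.drop u.length = (pwd (orc N a) m).take ℓ ++ v := by
          rw [← huv, List.append_assoc, List.drop_left]
        have h4 : ℓ' + i < ((pwd (orc N a) m).take ℓ).length := by
          rw [List.length_take, length_pwd]
          omega
        rw [h3, List.getD_append _ _ _ _ h4, List.getD_eq_getElem _ _ h4, List.getElem_take]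
        exact (pwd_get _ _ _ _).symm
      rw [if_pos ⟨m, h1, h2, u, v, huv⟩, if_pos hb]
    · rw [if_neg hS, mul_zero]
      exact Finset.sum_nonneg fun m _ => Finset.sum_nonneg fun j _ => hnn m j
  refine (Ex_mono unif_nn hpt).trans ?_
  rw [Ex_sum]
  have hE : 0 ≤ Ex unif h := by
    have := Ex_mono (w := unif) unif_nn (F := fun _ : Fin N → Bool => (0 : ℝ)) (G := h) h0
    rwa [Ex_const unif_sm] at this
  have h5 : ∀ m ∈ (range (B + 1)).filter (fun m => ℓ ≤ m),
      Ex unif (fun a : Fin N → Bool => ∑ j ∈ range (B + 1),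
        h a * (if ∀ i : Fin (ℓ - ℓ'), orc N a (ppos m (ℓ' + i)) =
          (s.drop j).getD (ℓ' + i) false then (1 : ℝ) else 0)) =
      ((B : ℝ) + 1) * ((1 / 2) ^ (ℓ - ℓ') * Ex unif h) := by
    intro m hm
    rw [Ex_sum, Finset.sum_congr rfl fun j _ => hstep m hm j, Finset.sum_const,
      Finset.card_range, nsmul_eq_mul]
    push_cast
    ring
  rw [Finset.sum_congr rfl h5, Finset.sum_const, nsmul_eq_mul, sq, mul_assoc]
  apply mul_le_mul_of_nonneg_right _ (by positivity)
  have h6 : ((range (B + 1)).filter (fun m => ℓ ≤ m)).card ≤ B + 1 :=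
    (Finset.card_filter_le _ _).trans (by rw [Finset.card_range])
  exact_mod_cast h6

end Pool.Agent.W908.HS
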