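import Pool.Agent.W908.H.H2

/-! A formula whose input is computed by a sampler. -/

set_option autoImplicit false

namespace Pool.Agent.W908.HS

open Pool.Agent.NPC Pool.Agent.H620R2.Gauge Finset H568R2 Pool.Agent.H676
open Pool.Agent.W908.SP (Fo Qo bv unif_nn unif_sm Ex_owr Ex_unif_av idx_inj sn sens sens_bound
  Qo_comp dtr_runG qs length_qs)

/-- the output of the sampler -/
def xs (G : Alg) (y : List Bool) (O : Oracle) : List Bool := (G.out O y).getD []

theorem exists_ob (G : Alg) : ∃ b : Polynomial ℕ, (∀ x a : List Bool,
    a.length ≤ G.p.eval x.length → (G.D (pairBits x a)).length ≤ b.eval x.length) :=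
  A2.act_bound G

/-- the bound for the actions -/
noncomputable def ob (G : Alg) : Polynomial ℕ := Classical.choose (exists_ob G)

theorem ob_spec (G : Alg) : ∀ x a : List Bool, a.length ≤ G.p.eval x.length →
    (G.D (pairBits x a)).length ≤ (ob G).eval x.length := Classical.choose_spec (exists_ob G)

theorem length_xs (G : Alg) (y : List Bool) (O : Oracle) :
    (xs G y O).length ≤ (ob G).eval y.length := by
  have key : ∀ (n : ℕ) (a : List Bool), n + a.length ≤ G.p.eval y.length →
      ((G.run O y n a).getD []).length ≤ (ob G).eval y.length := by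
    intro n
    induction n with
    | zero => intro a _; simp [Alg.run]
    | succ n ih =>
      intro a ha
      have h1 := ob_spec G y a (by omega)
      rcases hD : G.D (pairBits y a) with _ | ⟨c, q⟩
      · simp [Alg.run, hD]
      · rw [hD, List.length_cons] at h1
        cases c with
        | true =>
          simp only [Alg.run, hD, Option.getD_some]
          omega
        | false =>
          simp only [Alg.run, hD]
          exact ih _ (by rw [List.length_append, List.length_singleton]; omega)
  exact key _ [] (by simp)

section

variable {I : Type} [Fintype I] [DecidableEq I]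

/-- a computation after the run of an algorithm -/
theorem dtr_bind (M : Alg) (Φ : (I → Bool) → Oracle)
    (hΦ : ∀ q, (∃ c, ∀ a, Φ a q = c) ∨ ∃ i, ∀ a, Φ a q = a i) (y : List Bool) {d : ℕ}
    (K : List Bool → (I → Bool) → Bool) {A₀ L : ℕ}
    (hD : ∀ a : List Bool, a.length ≤ A₀ → (M.D (pairBits y a)).length ≤ L)
    (hK : ∀ v : List Bool, v.length ≤ L → DTr d (K v)) :
    ∀ (n : ℕ) (acc : List Bool), n + acc.length ≤ A₀ →
      DTr (n + d) (fun a : I → Bool => K ((M.run (Φ a) y n acc).getD []) a) := by
  intro n
  induction n with
  | zero =>
    intro acc _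
    exact (hK [] (by simp)).mono (by omega)
  | succ n ih =>
    intro acc hacc
    have h0 := hD acc (by omega)
    rcases hq : M.D (pairBits y acc) with _ | ⟨c, q⟩
    · have h1 := (hK [] (by simp)).mono (show d ≤ n + 1 + d by omega)
      refine (congrArg (DTr (n + 1 + d)) (funext fun a => ?_)).mp h1
      simp [Alg.run, hq]
    · rw [hq, List.length_cons] at h0
      cases c with
      | true =>
        have h1 := (hK q (by omega)).mono (show d ≤ n + 1 + d by omega)
        refine (congrArg (DTr (n + 1 + d)) (funext fun a => ?_)).mp h1
        simp [Alg.run, hq]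
      | false =>
        have e : n + 1 + d = (n + d) + 1 := by omega
        rw [e]
        rcases hΦ q with ⟨c, hc⟩ | ⟨i, hi⟩
        · have h1 := (ih (acc ++ [c]) (by
            rw [List.length_append, List.length_singleton]; omega)).succ
          refine (congrArg (DTr (n + d + 1)) (funext fun a => ?_)).mp h1
          simp [Alg.run, hq, hc]
        · refine Or.inr ⟨i, fun b => ?_⟩
          have h1 := DTr_update (ih (acc ++ [b]) (by
            rw [List.length_append, List.length_singleton]; omega)) i b
          refine (congrArg (DTr (n + d)) (funext fun a => ?_)).mp h1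
          have : Φ (Function.update a i b) q = b := by rw [hi, Function.update_self]
          simp [Alg.run, hq, this]

end

theorem QF_at {I : Type} {m : ℕ} {F F' : List Bool → (I → Bool) → Bool} {z : I → Bool}
    (h : ∀ y, F y z = F' y z) : ∀ (k : ℕ) (b : Bool) (y : List Bool),
      QF m F k b y z = QF m F' k b y z := by
  intro k
  induction k with
  | zero => intro b y; cases b <;> exact h y
  | succ k ih =>
    intro b y
    cases b with
    | true =>
      simp only [QF]
      rw [Bool.eq_iff_iff]
      simp only [decide_eq_true_eq]
      exact exists_congr fun w => and_congr_right fun _ => by rw [ih false _]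
    | false =>
      simp only [QF]
      rw [Bool.eq_iff_iff]
      simp only [decide_eq_true_eq]
      exact forall_congr' fun w => imp_congr_right fun _ => by rw [ih true _]

/-- the strings are cut, and the input is replaced by `x` -/
def tk (P : ℕ) : ℕ → List Bool → List Bool → List Bool
  | 0, x, _ => x
  | j + 1, x, y => pairBits ((unpair y).1.take P) (tk P j x (unpair y).2)

theorem QF_tk {I : Type} {m P : ℕ} (hP : P ≤ m) (F : List Bool → (I → Bool) → Bool)
    (x : List Bool) (z : I → Bool) : ∀ (k j : ℕ) (b : Bool) (y : List Bool),
      QF m (fun y z => F (tk P (j + k) x y) z) k b y z = QF P F k b (tk P j x y) z := by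
  intro k
  induction k with
  | zero => intro j b y; cases b <;> rfl
  | succ k ih =>
    intro j b y
    have e : ∀ b' w, QF m (fun y z => F (tk P (j + (k + 1)) x y) z) k b' (pairBits w y) z =
        QF P F k b' (pairBits (w.take P) (tk P j x y)) z := by
      intro b' w
      have h1 := ih (j + 1) b' (pairBits w y)
      have e1 : j + 1 + k = j + (k + 1) := by omega
      rw [e1] at h1
      rw [h1]
      simp only [tk, unpair_pairBits]
    cases b with
    | true =>
      simp only [QF]
      rw [Bool.eq_iff_iff]
      simp only [decide_eq_true_eq, e]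
      constructor
      · rintro ⟨w, _, h2⟩
        exact ⟨w.take P, by rw [List.length_take]; exact min_le_left _ _, h2⟩
      · rintro ⟨w, h1, h2⟩
        exact ⟨w, h1.trans hP, by rw [List.take_of_length_le h1]; exact h2⟩
    | false =>
      simp only [QF]
      rw [Bool.eq_iff_iff]
      simp only [decide_eq_true_eq, e]
      constructor
      · intro h w h1
        have h2 := h w (h1.trans hP)
        rwa [List.take_of_length_le h1] at h2
      · intro h w _
        exact h (w.take P) (by rw [List.length_take]; exact min_le_left _ _)

theorem unpair_len2 (y : List Bool) :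
    2 * (unpair y).1.length + (unpair y).2.length ≤ y.length := by
  have h : ∀ (k : ℕ) (s : List Bool × List Bool × Bool),
      2 * (ustep^[k] s).1.length + (ustep^[k] s).2.1.length ≤
        2 * s.1.length + s.2.1.length := by
    intro k
    induction k with
    | zero => intro s; simp
    | succ k ih =>
      intro s
      rw [Function.iterate_succ_apply]
      refine (ih _).trans ?_
      obtain ⟨a, l, b⟩ := s
      unfold ustep
      cases b with
      | true => simp
      | false =>
        match l with
        | [] => simp
        | true :: [] => simp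
        | true :: c :: l' => simp; omega
        | false :: l' => simp
  have h1 := h y.length ([], y, false)
  unfold unpair
  simp only [List.length_reverse]
  simpa using h1

theorem length_tk (P : ℕ) (x : List Bool) : ∀ (j : ℕ) (y : List Bool),
    (tk P j x y).length ≤ y.length + j + x.length := by
  intro j
  induction j with
  | zero => intro y; simp only [tk]; omega
  | succ j ih =>
    intro y
    have h1 := ih (unpair y).2
    have h2 := unpair_len2 y
    have h3 : ((unpair y).1.take P).length ≤ (unpair y).1.length := by
      rw [List.length_take]; exact min_le_right _ _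
    simp only [tk]
    rw [A2.length_pairBits]
    omega

/-- the value of the formula at the sample -/
noncomputable def gv (θ : Par) (G : Alg) (y : List Bool) (O : Oracle) : Bool :=
  fo θ (xs G y O) O

/-- the formula with the sampler inside -/
noncomputable def lf (θ : Par) (G : Alg) (y y' : List Bool) (O : Oracle) : Bool :=
  Fo θ.M (tk (θ.p.eval (xs G y O).length) θ.k (xs G y O) y') O

theorem gv_eq {θ : Par} {G : Alg} {y : List Bool} {m : ℕ}
    (hm : θ.p.eval ((ob G).eval y.length) ≤ m) (O : Oracle) :
    gv θ G y O = QF m (lf θ G y) θ.k true [] O := by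
  have h1 : θ.p.eval (xs G y O).length ≤ m := (eval_mono _ (length_xs G y O)).trans hm
  have h2 := QF_tk h1 (Fo θ.M) (xs G y O) O θ.k 0 true []
  rw [Nat.zero_add] at h2
  have h3 : QF m (lf θ G y) θ.k true [] O = QF m (fun y' O' =>
      Fo θ.M (tk (θ.p.eval (xs G y O).length) θ.k (xs G y O) y') O') θ.k true [] O :=
    QF_at (F := lf θ G y) (F' := fun y' O' =>
      Fo θ.M (tk (θ.p.eval (xs G y O).length) θ.k (xs G y O) y') O') (z := O)
      (fun y' => rfl) _ _ _
  rw [h3]
  exact h2.symm

section

variable {I : Type} [Fintype I] [DecidableEq I]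

theorem gv_sens {θ : Par} {G : Alg} {y : List Bool} {c t m : ℕ} (Φ : (I → Bool) → Oracle)
    (hΦ : ∀ q, (∃ c, ∀ a, Φ a q = c) ∨ ∃ i, ∀ a, Φ a q = a i) (ht : 1 ≤ t)
    (hm : m = θ.p.eval ((ob G).eval y.length))
    (hc : Fintype.card I = 2 ^ c)
    (h1 : G.p.eval y.length + θ.M.p.eval (θ.k * (2 * m + 1) + θ.k + (ob G).eval y.length) ≤ t)
    (h2 : c + θ.k + (θ.k * (2 * m + 1) + 2) ≤ t + 1) :
    sens (fun b => gv θ G y (Φ b)) ≤ (24 * t) ^ θ.k * (t + 1) := by
  have e : (fun b => gv θ G y (Φ b)) =
      QF m (fun y' b => lf θ G y y' (Φ b)) θ.k true [] := by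
    funext b
    rw [gv_eq hm.ge]
    exact Pool.Agent.H591R3.PHG.QF_comp m (lf θ G y) Φ θ.k true [] b
  rw [e]
  refine sens_bound (c := c) ht _ _ (fun y' hy' => ?_) hc (by
    simp only [List.length_nil]; omega)
  simp only [List.length_nil, Nat.zero_add] at hy'
  have h3 := dtr_bind G Φ hΦ y (d := θ.M.p.eval (θ.k * (2 * m + 1) + θ.k +
      (ob G).eval y.length))
    (fun x b => Fo θ.M (tk (θ.p.eval x.length) θ.k x y') (Φ b)) (A₀ := G.p.eval y.length)
    (L := (ob G).eval y.length) (ob_spec G y) (fun x hx => by
      have h4 := dtr_runG θ.M Φ hΦ (tk (θ.p.eval x.length) θ.k x y')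
        (θ.M.p.eval (tk (θ.p.eval x.length) θ.k x y').length) []
      refine h4.mono (eval_mono _ ?_)
      have h5 := length_tk (θ.p.eval x.length) x θ.k y'
      omega) (G.p.eval y.length) [] (by simp)
  exact h3.mono h1

end

end Pool.Agent.W908.HS
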