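import Pool.Agent.W908.H.H3

/-! The probability that the solver is wrong at the sample. -/

set_option autoImplicit false

namespace Pool.Agent.W908.HS

open Pool.Agent.NPC Pool.Agent.H620R2.Gauge Finset H568R2 Pool.Agent.H676
open Pool.Agent.W908.SP (Fo Qo bv unif_nn unif_sm Ex_owr Ex_unif_av idx_inj sn sens
  Qo_comp dtr_runG qs length_qs)
open Pool.Agent.W908.PS (pwd ppos ppos_inj length_ppos length_pwd idx_lt_pow Ex_comm qq qb
  qb_spec out_congr pwd_local)

/-- the oracle, for short questions -/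
noncomputable def wd (W : Oracle) (T : ℕ) : Oracle := oh (pwd W) T W

/-- the oracle with new protected bits, for short questions -/
noncomputable def wn (W : Oracle) (T ℓ : ℕ) (Z : Oracle) : Oracle :=
  oh (pwd W) T (rr (pwd W) ℓ W Z)

/-- the answer of the solver for the sample is wrong -/
def Er (W : Oracle) (N T ℓ : ℕ) (θ : Par) (G : Alg) (y : List Bool) : Prop :=
  decide (1 / 2 ≤ Ex unif (fun z : Fin N → Bool =>
    bv (fo θ (xs G y (wd W T)) (wn W T ℓ (orc N z))))) ≠ gv θ G y (wd W T)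

theorem Ex_nn {I : Type} [Fintype I] [DecidableEq I] {F : (I → Bool) → ℝ} (h : ∀ a, 0 ≤ F a) :
    0 ≤ Ex unif F := by
  have := Ex_mono (w := unif) unif_nn (F := fun _ : I → Bool => (0 : ℝ)) (G := F) h
  rwa [Ex_const unif_sm] at this

open Classical in
theorem er_le {W : Oracle} {N T ℓ : ℕ} {θ : Par} {G : Alg} {y : List Bool} :
    (if Er W N T ℓ θ G y then (1 : ℝ) else 0) ≤ 2 * Ex unif (fun z : Fin N → Bool =>
      if fo θ (xs G y (wd W T)) (wn W T ℓ (orc N z)) ≠ gv θ G y (wd W T) then (1 : ℝ) else 0) := by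
  by_cases h : Er W N T ℓ θ G y
  swap
  · rw [if_neg h]
    exact mul_nonneg (by norm_num) (Ex_nn fun z => by split_ifs <;> norm_num)
  rw [if_pos h]
  unfold Er at h
  cases hv : gv θ G y (wd W T) with
  | true =>
    rw [hv] at h
    have h1 : ¬ (1 / 2 ≤ Ex unif (fun z : Fin N → Bool =>
      bv (fo θ (xs G y (wd W T)) (wn W T ℓ (orc N z))))) := by
      intro h2
      exact h (decide_eq_true h2)
    have h2 : (fun z : Fin N → Bool => if fo θ (xs G y (wd W T)) (wn W T ℓ (orc N z)) ≠ true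
        then (1 : ℝ) else 0) = fun z => 1 + (-1) *
        bv (fo θ (xs G y (wd W T)) (wn W T ℓ (orc N z))) := by
      funext z
      unfold bv
      cases fo θ (xs G y (wd W T)) (wn W T ℓ (orc N z)) <;> norm_num
    rw [h2, Ex_add, Ex_smul, Ex_const unif_sm]
    push Not at h1
    linarith
  | false =>
    rw [hv] at h
    have h1 : 1 / 2 ≤ Ex unif (fun z : Fin N → Bool =>
      bv (fo θ (xs G y (wd W T)) (wn W T ℓ (orc N z)))) := by
      by_contra h2
      exact h (decide_eq_false h2)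
    have h2 : (fun z : Fin N → Bool => if fo θ (xs G y (wd W T)) (wn W T ℓ (orc N z)) ≠ false
        then (1 : ℝ) else 0) = fun z => bv (fo θ (xs G y (wd W T)) (wn W T ℓ (orc N z))) := by
      funext z
      unfold bv
      congr 1
      rw [ne_eq, Bool.not_eq_false]
    rw [h2]
    linarith

open Classical in
theorem split_le {W : Oracle} {T ℓ : ℕ} {θ : Par} {G : Alg} {y : List Bool} {Z : Oracle} :
    (if fo θ (xs G y (wd W T)) (wn W T ℓ Z) ≠ gv θ G y (wd W T) then (1 : ℝ) else 0) ≤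
      (if xs G y (wn W T ℓ Z) ≠ xs G y (wd W T) then (1 : ℝ) else 0) +
      (if gv θ G y (wn W T ℓ Z) ≠ gv θ G y (wd W T) then (1 : ℝ) else 0) := by
  by_cases h1 : xs G y (wn W T ℓ Z) ≠ xs G y (wd W T)
  · rw [if_pos h1]
    have h2 : (if fo θ (xs G y (wd W T)) (wn W T ℓ Z) ≠ gv θ G y (wd W T)
      then (1 : ℝ) else 0) ≤ 1 := by split_ifs <;> norm_num
    have h3 : (0 : ℝ) ≤ (if gv θ G y (wn W T ℓ Z) ≠ gv θ G y (wd W T)
      then (1 : ℝ) else 0) := by split_ifs <;> norm_num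
    linarith
  · rw [if_neg h1, zero_add]
    rw [not_not] at h1
    have e : gv θ G y (wn W T ℓ Z) = fo θ (xs G y (wd W T)) (wn W T ℓ Z) := by
      unfold gv
      rw [h1]
    rw [e]

theorem wn_eq {W : Oracle} {T ℓ : ℕ} (hT : T ≤ 2 ^ ℓ) {Z : Oracle} {q : List Bool}
    (h : ¬ Star (pwd W) ℓ q) : wn W T ℓ Z q = wd W T q := by
  classical
  unfold wn wd
  match q with
  | [] => rw [oh_nil, oh_nil]
  | true :: q =>
    refine oh_star hT (fun s hs => ?_) q
    unfold rr
    rw [if_neg hs]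
  | false :: q =>
    by_cases hq : (false :: q).length < T
    · rw [oh_data hq, oh_data hq]
      unfold rr
      rw [if_neg h]
    · rw [oh_ge (by omega), oh_ge (by omega)]

theorem xs_ne {W : Oracle} {T ℓ : ℕ} (hT : T ≤ 2 ^ ℓ) {G : Alg} {y : List Bool} {Z : Oracle}
    (h : xs G y (wn W T ℓ Z) ≠ xs G y (wd W T)) :
    ∃ q ∈ qq G (wd W T) y, Star (pwd W) ℓ q := by
  by_contra hcon
  push Not at hcon
  apply h
  unfold xs
  rw [(out_congr G fun q hq => wn_eq hT (hcon q hq)).1]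

/-- the data bits matter, and the first bits of the secrets -/
theorem wd_inv {N T ℓ' : ℕ} (hT : T ≤ 2 ^ ℓ') {a a' : Fin N → Bool}
    (h1 : cut (pwd (orc N a)) ℓ' = cut (pwd (orc N a')) ℓ')
    (h2 : ∀ s, orc N a (false :: s) = orc N a' (false :: s)) :
    wd (orc N a) T = wd (orc N a') T := by
  unfold wd
  rw [← oh_cut (P := pwd (orc N a)) hT, ← oh_cut (P := pwd (orc N a')) hT, h1]
  exact oh_congr (fun _ _ => rfl) fun s _ => h2 s

open Classical in
/-- the sampler does not meet the protected strings -/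
theorem samp_prob {N T ℓ ℓ' : ℕ} (hN : 2 ^ (3 * T + 3) ≤ N) (hℓ : ℓ' ≤ ℓ) (hT : T ≤ 2 ^ ℓ')
    (G : Alg) (y : List Bool) (hq : (qb G).eval y.length ≤ T) :
    Ex unif (fun a : Fin N → Bool =>
      if ∃ q ∈ qq G (wd (orc N a) T) y, Star (pwd (orc N a)) ℓ q then (1 : ℝ) else 0) ≤
      ((G.p.eval y.length : ℕ) : ℝ) * (((T : ℝ) + 1) ^ 2 * (1 / 2) ^ (ℓ - ℓ')) := by
  have hpt : ∀ a : Fin N → Bool,
      (if ∃ q ∈ qq G (wd (orc N a) T) y, Star (pwd (orc N a)) ℓ q then (1 : ℝ) else 0) ≤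
      ∑ s ∈ W_strs T, (if s ∈ qq G (wd (orc N a) T) y then (1 : ℝ) else 0) *
        (if Star (pwd (orc N a)) ℓ s then (1 : ℝ) else 0) := by
    intro a
    have hnn : ∀ s ∈ W_strs T, (0 : ℝ) ≤ (if s ∈ qq G (wd (orc N a) T) y then (1 : ℝ) else 0) *
        (if Star (pwd (orc N a)) ℓ s then (1 : ℝ) else 0) := by
      intro s _
      refine mul_nonneg ?_ ?_ <;> split_ifs <;> norm_num
    by_cases h : ∃ q ∈ qq G (wd (orc N a) T) y, Star (pwd (orc N a)) ℓ q
    · rw [if_pos h]
      obtain ⟨q, h1, h2⟩ := h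
      refine le_trans ?_ (Finset.single_le_sum hnn
        (W_mem_strs ((qb_spec G _ _ q h1).trans hq)))
      rw [if_pos h1, if_pos h2, mul_one]
    · rw [if_neg h]
      exact Finset.sum_nonneg hnn
  refine (Ex_mono unif_nn hpt).trans ?_
  rw [Ex_sum]
  have h1 : ∀ s ∈ W_strs T, Ex unif (fun a : Fin N → Bool =>
      (if s ∈ qq G (wd (orc N a) T) y then (1 : ℝ) else 0) *
        (if Star (pwd (orc N a)) ℓ s then (1 : ℝ) else 0)) ≤
      ((T : ℝ) + 1) ^ 2 * ((1 / 2) ^ (ℓ - ℓ') * Ex unif (fun a : Fin N → Bool =>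
        (if s ∈ qq G (wd (orc N a) T) y then (1 : ℝ) else 0))) := by
    intro s hs
    refine star_prob hN hℓ (W_length_of_mem hs) (fun a => by split_ifs <;> norm_num) ?_
    intro a a' h2 h3
    beta_reduce
    rw [wd_inv hT h2 h3]
  refine (Finset.sum_le_sum h1).trans ?_
  rw [← Finset.mul_sum, ← Finset.mul_sum, ← Ex_sum]
  have h2 : Ex unif (fun a : Fin N → Bool => ∑ s ∈ W_strs T,
      (if s ∈ qq G (wd (orc N a) T) y then (1 : ℝ) else 0)) ≤ ((G.p.eval y.length : ℕ) : ℝ) := by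
    refine (Ex_mono unif_nn (G := fun _ => ((G.p.eval y.length : ℕ) : ℝ)) fun a => ?_).trans
      (le_of_eq (Ex_const unif_sm _))
    rw [Finset.sum_boole]
    have h3 : ((W_strs T).filter (fun s => s ∈ qq G (wd (orc N a) T) y)).card ≤
        (qq G (wd (orc N a) T) y).toFinset.card := by
      refine Finset.card_le_card fun s hs => ?_
      rw [List.mem_toFinset]
      exact (Finset.mem_filter.1 hs).2
    have h4 := (List.toFinset_card_le (qq G (wd (orc N a) T) y))
    have h5 := length_qs G (wd (orc N a) T) y (G.p.eval y.length) []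
    exact_mod_cast h3.trans (h4.trans h5)
  calc ((T : ℝ) + 1) ^ 2 * ((1 / 2) ^ (ℓ - ℓ') * Ex unif (fun a : Fin N → Bool =>
        ∑ s ∈ W_strs T, (if s ∈ qq G (wd (orc N a) T) y then (1 : ℝ) else 0)))
      ≤ ((T : ℝ) + 1) ^ 2 * ((1 / 2) ^ (ℓ - ℓ') * ((G.p.eval y.length : ℕ) : ℝ)) := by
        apply mul_le_mul_of_nonneg_left _ (by positivity)
        exact mul_le_mul_of_nonneg_left h2 (by positivity)
    _ = _ := by ring

end Pool.Agent.W908.HS
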