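import Pool.Agent.W908.H.H4

/-! The value of the formula is stable. -/

set_option autoImplicit false

namespace Pool.Agent.W908.HS

open Pool.Agent.NPC Pool.Agent.H620R2.Gauge Finset H568R2 Pool.Agent.H676
open Pool.Agent.W908.SP (Fo Qo bv unif_nn unif_sm Ex_owr Ex_unif_av idx_inj sn sens
  Qo_comp dtr_runG qs length_qs)
open Pool.Agent.W908.PS (pwd ppos ppos_inj length_ppos length_pwd idx_lt_pow Ex_comm qq qb
  qb_spec out_congr pwd_local)

theorem str_of_idx {N : ℕ} {s : List Bool} (h : idx s < N) : str ((⟨idx s, h⟩ : Fin N) : ℕ) = s :=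
  str_idx s

/-- the positions of the data bits -/
def Dt {N : ℕ} (i : Fin N) : Prop := ∃ s, str i.val = false :: s

/-- the positions of the protected bits -/
def Sp {N : ℕ} (P : ℕ → List Bool) (ℓ : ℕ) (i : Fin N) : Prop := Star P ℓ (str i.val)

theorem orc_mix {N : ℕ} (S : Fin N → Prop) (a b : Fin N → Bool) (s : List Bool) :
    (∀ h : idx s < N, S ⟨idx s, h⟩ → orc N (mix S a b) s = orc N b s) ∧
    (∀ h : idx s < N, ¬ S ⟨idx s, h⟩ → orc N (mix S a b) s = orc N a s) ∧
    (¬ idx s < N → orc N (mix S a b) s = false) := by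
  classical
  unfold orc mix
  refine ⟨fun h hS => ?_, fun h hS => ?_, fun h => ?_⟩
  · rw [dif_pos h, dif_pos h, if_pos hS]
  · rw [dif_pos h, dif_pos h, if_neg hS]
  · rw [dif_neg h]

theorem mix_pwd {N : ℕ} (a b : Fin N → Bool) : pwd (orc N (mix Dt a b)) = pwd (orc N a) := by
  funext m
  unfold pwd
  refine List.map_congr_left fun i _ => ?_
  obtain ⟨t, ht⟩ := ppos_head m i
  rw [ht]
  by_cases h : idx (true :: t) < N
  · refine (orc_mix Dt a b (true :: t)).2.1 h ?_
    rintro ⟨s, hs⟩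
    rw [str_idx] at hs
    simp at hs
  · rw [(orc_mix Dt a b (true :: t)).2.2 h]
    unfold orc
    rw [dif_neg h]

theorem mix_data {N : ℕ} (a b : Fin N → Bool) (s : List Bool) :
    orc N (mix Dt a b) (false :: s) = orc N b (false :: s) := by
  by_cases h : idx (false :: s) < N
  · exact (orc_mix Dt a b (false :: s)).1 h ⟨s, str_idx _⟩
  · rw [(orc_mix Dt a b (false :: s)).2.2 h]
    unfold orc
    rw [dif_neg h]

theorem rr_mix {N : ℕ} (P : ℕ → List Bool) (ℓ : ℕ) (b z : Fin N → Bool) :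
    rr P ℓ (orc N b) (orc N z) = orc N (mix (Sp P ℓ) b z) := by
  classical
  funext s
  unfold rr
  by_cases h : idx s < N
  · by_cases hS : Star P ℓ s
    · rw [if_pos hS, (orc_mix (Sp P ℓ) b z s).1 h (by
        unfold Sp
        rw [str_of_idx]
        exact hS)]
    · rw [if_neg hS, (orc_mix (Sp P ℓ) b z s).2.1 h (by
        unfold Sp
        rw [str_of_idx]
        exact hS)]
  · rw [(orc_mix (Sp P ℓ) b z s).2.2 h]
    unfold orc
    rw [dif_neg h, dif_neg h]
    simp

theorem mix_comp {N : ℕ} {S S' : Fin N → Prop} (h : ∀ i, S i → S' i) (β b z : Fin N → Bool) :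
    mix S (mix S' β b) z = mix S' β (mix S b z) := by
  classical
  funext i
  unfold mix
  by_cases h1 : S i
  · rw [if_pos h1, if_pos (h i h1), if_pos h1]
  · rw [if_neg h1, if_neg h1]

/-- the value of the formula as a function of the protected bits -/
noncomputable def gt {N : ℕ} (P : ℕ → List Bool) (T ℓ' : ℕ) (θ : Par) (G : Alg) (y : List Bool)
    (β b : Fin N → Bool) : Bool :=
  gv θ G y (oh P T (orc N (mix (Sp P ℓ') β b)))

theorem gt_dep {N T ℓ' : ℕ} {P : ℕ → List Bool} (hT : T ≤ 2 ^ ℓ') (β : Fin N → Bool)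
    (q : List Bool) :
    (∃ c, ∀ b : Fin N → Bool, oh P T (orc N (mix (Sp P ℓ') β b)) q = c) ∨
      ∃ i, ∀ b : Fin N → Bool, oh P T (orc N (mix (Sp P ℓ') β b)) q = b i := by
  match q with
  | [] => exact Or.inl ⟨false, fun b => oh_nil⟩
  | true :: q =>
    left
    refine ⟨oh P T (orc N β) (true :: q), fun b => oh_star hT (fun s hs => ?_) q⟩
    by_cases h : idx s < N
    · refine (orc_mix (Sp P ℓ') β b s).2.1 h ?_
      unfold Sp
      rw [str_of_idx]
      exact hs
    · rw [(orc_mix (Sp P ℓ') β b s).2.2 h]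
      unfold orc
      rw [dif_neg h]
  | false :: q =>
    by_cases hq : (false :: q).length < T
    swap
    · exact Or.inl ⟨false, fun b => oh_ge (by omega)⟩
    by_cases h : idx (false :: q) < N
    · by_cases hS : Star P ℓ' (false :: q)
      · right
        refine ⟨⟨idx (false :: q), h⟩, fun b => ?_⟩
        rw [oh_data hq, (orc_mix (Sp P ℓ') β b (false :: q)).1 h (by
          unfold Sp
          rw [str_of_idx]
          exact hS)]
        unfold orc
        rw [dif_pos h]
      · left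
        refine ⟨orc N β (false :: q), fun b => ?_⟩
        rw [oh_data hq, (orc_mix (Sp P ℓ') β b (false :: q)).2.1 h (by
          unfold Sp
          rw [str_of_idx]
          exact hS)]
    · left
      refine ⟨false, fun b => ?_⟩
      rw [oh_data hq, (orc_mix (Sp P ℓ') β b (false :: q)).2.2 h]

theorem gt_cut {N T ℓ' : ℕ} {P : ℕ → List Bool} (hT : T ≤ 2 ^ ℓ') (θ : Par) (G : Alg)
    (y : List Bool) (β : Fin N → Bool) :
    gt (cut P ℓ') T ℓ' θ G y β = gt P T ℓ' θ G y β := by
  funext b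
  unfold gt
  have e : Sp (N := N) (cut P ℓ') ℓ' = Sp P ℓ' := by
    funext i
    unfold Sp
    rw [star_cut le_rfl]
  rw [e, oh_cut hT]

/-- long strings have no influence -/
theorem inf_long {N T ℓ' : ℕ} {P : ℕ → List Bool} {θ : Par} {G : Alg}
    {y : List Bool} {β : Fin N → Bool} {i : Fin N} (hi : T ≤ (str i.val).length) :
    inf (gt P T ℓ' θ G y β) i = 0 := by
  classical
  have h : ∀ b : Fin N → Bool, gt P T ℓ' θ G y β (flp i b) = gt P T ℓ' θ G y β b := by
    intro b
    unfold gt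
    congr 1
    refine oh_congr (fun _ _ => rfl) fun s hs => ?_
    by_cases h1 : idx (false :: s) < N
    · have h2 : (⟨idx (false :: s), h1⟩ : Fin N) ≠ i := by
        rintro rfl
        rw [str_of_idx] at hi
        omega
      by_cases hS : Sp (N := N) P ℓ' ⟨idx (false :: s), h1⟩
      · rw [(orc_mix (Sp P ℓ') β _ (false :: s)).1 h1 hS,
          (orc_mix (Sp P ℓ') β _ (false :: s)).1 h1 hS]
        unfold orc
        rw [dif_pos h1, dif_pos h1]
        simp [flp, h2]
      · rw [(orc_mix (Sp P ℓ') β _ (false :: s)).2.1 h1 hS,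
          (orc_mix (Sp P ℓ') β _ (false :: s)).2.1 h1 hS]
    · rw [(orc_mix (Sp P ℓ') β _ (false :: s)).2.2 h1,
        (orc_mix (Sp P ℓ') β _ (false :: s)).2.2 h1]
  unfold inf
  have e : (fun b : Fin N → Bool => if gt P T ℓ' θ G y β (flp i b) ≠ gt P T ℓ' θ G y β b
      then (1 : ℝ) else 0) = fun _ => 0 := by
    funext b
    rw [if_neg (not_not.2 (h b))]
  rw [e, Ex_const unif_sm]

open Classical in
/-- The value of the formula is stable. -/
theorem form_prob {N T ℓ ℓ' : ℕ} (hN : 2 ^ (3 * T + 3) ≤ N) (hℓ : ℓ' ≤ ℓ) (hT : T ≤ 2 ^ ℓ')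
    (θ : Par) (G : Alg) (y : List Bool) {Sb : ℝ}
    (hS : ∀ (P : ℕ → List Bool) (β : Fin N → Bool), sens (gt P T ℓ' θ G y β) ≤ Sb) :
    Ex unif (fun a : Fin N → Bool => Ex unif (fun z : Fin N → Bool =>
      if gv θ G y (wn (orc N a) T ℓ (orc N z)) ≠ gv θ G y (wd (orc N a) T)
        then (1 : ℝ) else 0)) ≤ ((T : ℝ) + 1) ^ 2 * (1 / 2) ^ (ℓ - ℓ') * Sb := by
  -- separate the data from the secrets
  obtain ⟨ψ, hψ⟩ : ∃ ψ : (ℕ → List Bool) → (Fin N → Bool) → (Fin N → Bool) → ℝ,
      ψ = fun P b z => if gv θ G y (oh P T (orc N (mix (Sp P ℓ) b z))) ≠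
        gv θ G y (oh P T (orc N b)) then (1 : ℝ) else 0 := ⟨_, rfl⟩
  have h1 : Ex unif (fun a : Fin N → Bool => Ex unif (fun z : Fin N → Bool =>
      if gv θ G y (wn (orc N a) T ℓ (orc N z)) ≠ gv θ G y (wd (orc N a) T)
        then (1 : ℝ) else 0)) = Ex unif (fun a : Fin N → Bool => Ex unif (fun b : Fin N → Bool =>
          Ex unif (fun z : Fin N → Bool => ψ (pwd (orc N a)) b z))) := by
    rw [← Ex_mix Dt]
    congr 1
    funext a
    congr 1
    funext b
    congr 1
    funext z
    rw [hψ]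
    have e1 : wd (orc N (mix Dt a b)) T = oh (pwd (orc N a)) T (orc N b) := by
      unfold wd
      rw [mix_pwd]
      exact oh_congr (fun _ _ => rfl) fun s _ => mix_data a b s
    have e2 : wn (orc N (mix Dt a b)) T ℓ (orc N z) =
        oh (pwd (orc N a)) T (orc N (mix (Sp (pwd (orc N a)) ℓ) b z)) := by
      unfold wn
      rw [mix_pwd, ← rr_mix]
      exact oh_congr (fun _ _ => rfl) fun s _ => rr_congr Iff.rfl (mix_data a b s)
    rw [e1, e2]
  -- the noise
  have h2 : ∀ P : ℕ → List Bool, Ex unif (fun b : Fin N → Bool =>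
      Ex unif (fun z : Fin N → Bool => ψ P b z)) ≤
      Ex unif (fun β : Fin N → Bool => ∑ i : Fin N, inf (gt P T ℓ' θ G y β) i *
        (if Star P ℓ (str i.val) then (1 : ℝ) else 0)) := by
    intro P
    rw [← Ex_mix (Sp P ℓ')]
    refine Ex_mono unif_nn fun β => ?_
    have h3 := noise (gt P T ℓ' θ G y β) (univ.filter (fun i : Fin N => Sp P ℓ i))
    have e3 : ∀ b z : Fin N → Bool, mix (· ∈ univ.filter (fun i : Fin N => Sp P ℓ i)) b z =
        mix (Sp P ℓ) b z := by
      intro b z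
      funext i
      unfold mix
      simp
    simp only [e3] at h3
    have e4 : ∀ b z : Fin N → Bool, ψ P (mix (Sp P ℓ') β b) z =
        if gt P T ℓ' θ G y β (mix (Sp P ℓ) b z) ≠ gt P T ℓ' θ G y β b
          then (1 : ℝ) else 0 := by
      intro b z
      rw [hψ]
      beta_reduce
      rw [mix_comp (S := Sp P ℓ) (S' := Sp P ℓ') (fun i hi => Star.mono hℓ hi)]
      rfl
    simp only [e4]
    refine h3.trans (le_of_eq ?_)
    rw [Finset.sum_filter]
    refine Finset.sum_congr rfl fun i _ => ?_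
    unfold Sp
    split_ifs <;> ring
  -- the secrets cannot be foreseen
  rw [h1]
  refine (Ex_mono unif_nn fun a => h2 (pwd (orc N a))).trans ?_
  rw [Ex_comm]
  refine (Ex_mono unif_nn (G := fun _ => ((T : ℝ) + 1) ^ 2 * (1 / 2) ^ (ℓ - ℓ') * Sb)
    fun β => ?_).trans (le_of_eq (Ex_const unif_sm _))
  rw [Ex_sum]
  have h3 : ∀ i ∈ (univ : Finset (Fin N)), Ex unif (fun a : Fin N → Bool =>
      inf (gt (pwd (orc N a)) T ℓ' θ G y β) i *
        (if Star (pwd (orc N a)) ℓ (str i.val) then (1 : ℝ) else 0)) ≤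
      ((T : ℝ) + 1) ^ 2 * ((1 / 2) ^ (ℓ - ℓ') * Ex unif (fun a : Fin N → Bool =>
        inf (gt (pwd (orc N a)) T ℓ' θ G y β) i)) := by
    intro i _
    by_cases hi : T ≤ (str i.val).length
    · simp only [inf_long hi, zero_mul]
      rw [Ex_const unif_sm, mul_zero, mul_zero]
    · refine star_prob hN hℓ (by omega) (fun a => inf_nonneg _ _) ?_
      intro a a' h4 _
      beta_reduce
      rw [← gt_cut (P := pwd (orc N a)) hT, ← gt_cut (P := pwd (orc N a')) hT, h4]
  refine (Finset.sum_le_sum h3).trans ?_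
  rw [← Finset.mul_sum, ← Finset.mul_sum, ← Ex_sum]
  have h4 : Ex unif (fun a : Fin N → Bool => ∑ i, inf (gt (pwd (orc N a)) T ℓ' θ G y β) i) ≤
      Sb := by
    refine (Ex_mono unif_nn (G := fun _ => Sb) fun a => ?_).trans (le_of_eq (Ex_const unif_sm _))
    rw [← sens_eq]
    exact hS _ _
  rw [mul_assoc]
  apply mul_le_mul_of_nonneg_left _ (by positivity)
  exact mul_le_mul_of_nonneg_left h4 (by positivity)

end Pool.Agent.W908.HS
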