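import Pool.Agent.W908.H.H7
import Pool.Agent.W908.R.RDefs

/-! The languages of the hierarchy are easy on average. -/

set_option autoImplicit false

namespace Pool.Agent.W908.HS

open Pool.Agent.NPC Pool.Agent.H620R2.Gauge Pool.Agent.H622R2 Finset H568R2 Pool.Agent.H676
open Pool.Agent.W908 (fr mach)
open Pool.Agent.W908.RS (EasyOnSamples)
open Pool.Agent.W908.SP (Fo Qo bv unif_nn unif_sm idx_inj mem_strsOf' card_strsOf' quant_Qo)
open Pool.Agent.W908.PS (pwd qq qb qb_spec out_congr)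
open Pool.Agent.H591R3.PHG (IsSig)

theorem easyH {W : Oracle} (hW : ∀ θ G q c, GoodH θ G q c W) {k : ℕ} {L : Set (List Bool)}
    (hL : IsSig (OH W) k L) {F : List Bool → List Bool} (hF : IsFP (OH W) F)
    (q : Polynomial ℕ) (c : ℕ) : EasyOnSamples (OH W) L F q c := by
  classical
  obtain ⟨V, p, ⟨M, hM⟩, hLV⟩ := hL
  obtain ⟨G, hG⟩ := hF
  obtain ⟨θ, hθ⟩ : ∃ θ : Par, θ = ⟨M, p, k, 0⟩ := ⟨_, rfl⟩
  obtain ⟨e, he⟩ := mkP_surj θ
  obtain ⟨Λ, hΛ, hbad⟩ := hW θ G q c
  refine ⟨fun v => (dq e Λ v).map (OH W), isFP_dq _ e Λ, fun n => ?_⟩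
  beta_reduce
  obtain ⟨T, hT⟩ : ∃ T, T = (TT θ G q).eval n := ⟨_, rfl⟩
  have hTe := TT_eval θ G q n
  rw [← hT] at hTe
  set S : Set (Fin (q.eval n) → Bool) := {r | (dq e Λ
    (pairBits (List.replicate n true) (F (pairBits (List.replicate n true) (List.ofFn r))))).map
      (OH W) = [true] ↔ F (pairBits (List.replicate n true) (List.ofFn r)) ∈ L} with hS
  set B := (strsOf (q.eval n)).filter (fun r => Er W (2 ^ (3 * (TT θ G q).eval n + 3))
      ((TT θ G q).eval n) (Nat.log 2 (Λ.eval n)) θ G (si n r)) with hB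
  have hb : (n + 1) ^ c * B.card ≤ 2 ^ (q.eval n) := hbad n
  have key : ∀ r : Fin (q.eval n) → Bool, List.ofFn r ∉ B → r ∈ S := by
    intro r hr
    have hr2 : ¬ Er W (2 ^ (3 * T + 3)) T (Nat.log 2 (Λ.eval n)) θ G (si n (List.ofFn r)) := by
      intro h
      refine hr (Finset.mem_filter.2 ⟨mem_strsOf'.2 (List.length_ofFn ..), ?_⟩)
      rw [← hT]
      exact h
    unfold Er at hr2
    rw [not_not] at hr2
    have hlen : (si n (List.ofFn r)).length = (sl q).eval n := length_si (List.length_ofFn ..)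
    have e1 : xs G (si n (List.ofFn r)) (OH W) = F (si n (List.ofFn r)) := by
      unfold xs
      rw [hG]
      rfl
    have e2 : xs G (si n (List.ofFn r)) (OH W) = xs G (si n (List.ofFn r)) (wd W T) :=
      xs_OH (by rw [hlen]; omega)
    obtain ⟨x, hx⟩ : ∃ x, x = F (si n (List.ofFn r)) := ⟨_, rfl⟩
    have e3 : xs G (si n (List.ofFn r)) (wd W T) = x := by rw [← e2, e1, hx]
    have hxl : (FB θ).eval x.length < T := by
      have h1 : x.length ≤ (ob G).eval ((sl q).eval n) := by
        rw [← hlen, ← e3]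
        exact length_xs _ _ _
      have h2 := eval_mono (FB θ) h1
      omega
    rw [e3] at hr2
    have e4 : gv θ G (si n (List.ofFn r)) (wd W T) = fo θ x (OH W) := by
      unfold gv
      rw [e3, fo_OH hxl]
    have e5 := OH_qz (W := W) (e := e) (x := x) (p := List.replicate (Λ.eval n) true)
      (N := 2 ^ (3 * T + 3)) (T := T) (by rw [he]; exact hxl)
      (by rw [List.length_replicate, hT]; exact hΛ n)
      (Nat.pow_le_pow_right (by norm_num) (by omega))
    rw [List.length_replicate, he, hr2, e4] at e5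
    have e6 : fo θ x (OH W) = true ↔ x ∈ L := by
      rw [hLV]
      have h1 := quant_Qo hM (p.eval x.length) k true x
      rw [hθ]
      exact h1.symm
    rw [hS, Set.mem_ofPred_eq]
    unfold dq
    simp only [unpair_pairBits, List.map_cons, List.map_nil, List.length_replicate]
    change ([OH W (true :: qz e (F (si n (List.ofFn r))) (List.replicate (Λ.eval n) true))] =
      [true]) ↔ F (si n (List.ofFn r)) ∈ L
    rw [← hx, e5, ← e6]
    constructor
    · intro h
      exact (List.cons.inj h).1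
    · intro h
      rw [h]
  have h3 : Sᶜ.ncard ≤ B.card := by
    rw [← Set.ncard_coe_finset]
    refine Set.ncard_le_ncard_of_injOn (fun t => List.ofFn t) ?_ ?_ (Finset.finite_toSet _)
    · intro r hr
      by_contra h
      exact hr (key r h)
    · intro t _ t' _ h
      exact List.ofFn_injective h
  have h4 := Set.ncard_add_ncard_compl S
  have h5 : Nat.card (Fin (q.eval n) → Bool) = 2 ^ (q.eval n) := by
    rw [Nat.card_eq_fintype_card]
    simp
  rw [h5] at h4
  have h6 : (n + 1) ^ c * Sᶜ.ncard ≤ 2 ^ (q.eval n) := (Nat.mul_le_mul_left _ h3).trans hb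
  have h7 : ((n : ℝ) + 1) ^ c * (Sᶜ.ncard : ℝ) ≤ 2 ^ (q.eval n) := by exact_mod_cast h6
  have h8 : (S.ncard : ℝ) + (Sᶜ.ncard : ℝ) = 2 ^ (q.eval n) := by exact_mod_cast h4
  have h9 : (Sᶜ.ncard : ℝ) ≤ 1 / ((n : ℝ) + 1) ^ c * 2 ^ (q.eval n) := by
    rw [one_div, inv_mul_eq_div, le_div_iff₀ (by positivity), mul_comm]
    exact h7
  rw [sub_mul, one_mul]
  linarith

end Pool.Agent.W908.HS
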