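import Pool.Agent.W908.H.H8

/-! The polynomial hierarchy is infinite: the rare events. -/

set_option autoImplicit false

namespace Pool.Agent.W908.HS

open Pool.Agent.NPC Pool.Agent.H620R2.Gauge Finset H568R2 Pool.Agent.H676
open Pool.Agent.W908 (fr)
open Pool.Agent.W908.SP (mem_strsOf' card_strsOf' idx_inj Ex_owr Ex_unif_av unif_nn unif_sm
  length_qs Fo Qo Qo_comp Qo_local quant_Qo dtr_runG bv)
open Pool.Agent.H591R3.PHG (QF_comp bot Idx Tr pw addr Wt nxt law0 main_leaf final_numbers Ms val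
  ber leaf_inj leaf_len lx Lx eval_Lx enc_len enc_inj mem_lang_iff leaves enc lang inp_len_le
  sum_le exists_sizes inv_start IsSigPoly)
open Pool.Agent.H591R3.PHG.Proj (owr owr_e owr_off owr_owr)
open Pool.Agent.W908.PS (pwd ppos ppos_inj length_ppos length_pwd idx_lt_pow Ex_comm qq qb
  qb_spec out_congr pwd_local Rare markov pre_local inpP inpP_len inpP_inj lfs lfs_len lfs_inj
  infix_lfs psP psP_inj pe pe_inj pwd_on orc_off base_P)

/-- the oracles for which the parameters are good for the hard language -/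
def EasyH (θ : Par) : Set Oracle :=
  {W | ∃ (V : List Bool → List Bool) (h : ℕ → List Bool),
    (∀ x, θ.M.out (OH W) x = some (V x)) ∧ (∀ n, (h n).length ≤ θ.p'.eval n) ∧
    ∀ x, x ∈ lang θ.k (fr (OH W)) ↔ Quant (θ.p.eval (pairBits x (h x.length)).length) V θ.k true
      (pairBits x (h x.length))}

theorem mem_easyH {W : Oracle} {k : ℕ} (h : IsSigPoly (OH W) k (lang k (fr (OH W)))) :
    ∃ θ, W ∈ EasyH θ := by
  obtain ⟨L', h, p', ⟨V, p, ⟨M, hM⟩, hL'⟩, hh, hx⟩ := h
  exact ⟨⟨M, p, k, p'⟩, V, h, hM, hh, fun x => (hx x).trans (hL' _)⟩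

/-- The event: some advice of the right length gives the right answers for all the inputs. -/
def EvH (θ : Par) (as : List ℕ) (n m X T : ℕ) (W : Oracle) : Prop :=
  ∃ c ≤ θ.p'.eval (lx as n + m), ∃ h ∈ strsOf c, ∀ j : Fin X,
    Qo θ.M (θ.p.eval (2 * (lx as n + m) + 1 + c)) θ.k
      (pairBits (inpP as n (pwd W m) X j) h) (wd W T) ≠
        Tr (8 * n :: pw as) (fun g => W (false :: lfs as n (pwd W m) X g)) j

theorem evH_of_easy {θ : Par} {W : Oracle} (hW : W ∈ EasyH θ) {as : List ℕ} {n m X T : ℕ}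
    (hk : as.length = θ.k + 1)
    (hT : ∀ c ≤ θ.p'.eval (lx as n + m), (rb θ.M).eval (2 * (lx as n + m) + 1 + c +
      θ.k * (2 * θ.p.eval (2 * (lx as n + m) + 1 + c) + 1)) < T) : EvH θ as n m X T W := by
  obtain ⟨V, h, hM, hh, hx⟩ := hW
  obtain ⟨L, hL⟩ : ∃ L, L = lx as n + m := ⟨_, rfl⟩
  have hhL := hh L
  refine ⟨(h L).length, by rw [← hL]; exact hh L, h L, mem_strsOf _, fun j => ?_⟩
  have hlen : (inpP as n (pwd W m) X j).length = L := by rw [inpP_len, length_pwd, hL]
  have h1 := hx (inpP as n (pwd W m) X j)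
  rw [hlen, A2.length_pairBits, hlen] at h1
  have h2 : inpP as n (pwd W m) X j ∈ lang θ.k (fr (OH W)) ↔
      Tr (8 * n :: pw as) (fun g => W (false :: lfs as n (pwd W m) X g)) j = false := by
    refine (mem_lang_iff (fr (OH W)) θ.k as hk (8 * n)
      (fun j : Fin X => pwd W m ++ bitsOf (n + 11) j.val) j).trans ?_
    have e : leaves (fun j : Fin X => enc as (8 * n) (pwd W m ++ bitsOf (n + 11) j.val)) as
        (8 * n) (fr (OH W)) = fun g => W (false :: lfs as n (pwd W m) X g) := by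
      funext g
      rw [fr_OH]
      rfl
    rw [e]
  have h3 := quant_Qo hM (θ.p.eval (2 * L + (h L).length + 1)) θ.k true
    (pairBits (inpP as n (pwd W m) X j) (h L))
  have h4 : Qo θ.M (θ.p.eval (2 * L + (h L).length + 1)) θ.k
      (pairBits (inpP as n (pwd W m) X j) (h L)) (OH W) = true ↔
      Tr (8 * n :: pw as) (fun g => W (false :: lfs as n (pwd W m) X g)) j = false := by
    rw [← h2, h1, h3]
    rfl
  have e2 : 2 * (lx as n + m) + 1 + (h L).length = 2 * L + (h L).length + 1 := by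
    rw [← hL]; ring
  have e3 : Qo θ.M (θ.p.eval (2 * L + (h L).length + 1)) θ.k
      (pairBits (inpP as n (pwd W m) X j) (h L)) (wd W T) =
      Qo θ.M (θ.p.eval (2 * L + (h L).length + 1)) θ.k
      (pairBits (inpP as n (pwd W m) X j) (h L)) (OH W) := by
    have h5 := hT (h L).length (by rw [← hL]; exact hhL)
    rw [e2] at h5
    refine (rb_spec θ.M (OH W) (wd W T) _ _ _ _ le_rfl fun q hq => OH_eq ?_).symm
    rw [A2.length_pairBits, hlen] at hq
    omega
  rw [e2, e3]
  intro heq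
  rw [heq] at h4
  cases hb : Tr (8 * n :: pw as) (fun g => W (false :: lfs as n (pwd W m) X g)) j with
  | true => rw [hb] at h4; exact absurd (h4.1 rfl) (by simp)
  | false => rw [hb] at h4; exact absurd (h4.2 rfl) (by simp)

theorem evH_local {θ : Par} {W W' : Oracle} {as : List ℕ} {n m X T : ℕ}
    (hm : lx as n + as.sum + 8 * n ≤ m) (hT : 2 * m + 2 ≤ T)
    (hWW : ∀ q : List Bool, q.length ≤ 3 * T + 2 → W q = W' q)
    (hE : EvH θ as n m X T W) : EvH θ as n m X T W' := by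
  obtain ⟨c, hc1, h, hh, hj⟩ := hE
  refine ⟨c, hc1, h, hh, fun j => ?_⟩
  have hp : pwd W m = pwd W' m := pwd_local hWW (by omega)
  have h2 : (fun g => W (false :: lfs as n (pwd W' m) X g)) =
      fun g => W' (false :: lfs as n (pwd W' m) X g) := by
    funext g
    refine hWW _ ?_
    have h3 := lfs_len as n (pwd W' m) X g
    rw [length_pwd] at h3
    rw [List.length_cons]
    omega
  have h3 := hj j
  rw [hp, wd_local hWW, h2] at h3
  exact h3

open Classical in
theorem dep_finalH {as : List ℕ} {n X N m T : ℕ} {w : List Bool} (hTm : T ≤ 2 ^ m)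
    (hN : ∀ g : Idx (Fin X) (8 * n :: pw as), idx (false :: lfs as n w X g) < N)
    (hX : X ≤ 2 ^ (n + 11)) (hN2 : 2 ^ (3 * m + 2) ≤ N) (a : Fin N → Bool) (z : Fin m → Bool)
    (hw : w = List.ofFn z) (q : List Bool) :
    (∃ c, ∀ v : Idx (Fin X) (8 * n :: pw as) → Bool,
      wd (orc N (owr (pe hN2) (owr (psP hN) a v) z)) T q = c) ∨
      ∃ g, ∀ v : Idx (Fin X) (8 * n :: pw as) → Bool,
        wd (orc N (owr (pe hN2) (owr (psP hN) a v) z)) T q = v g := by
  obtain ⟨A, hA⟩ : ∃ A : (Idx (Fin X) (8 * n :: pw as) → Bool) → Oracle,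
    A = fun v => orc N (owr (pe hN2) (owr (psP hN) a v) z) := ⟨_, rfl⟩
  have hdep : ∀ q : List Bool, (∃ c, ∀ v, A v q = c) ∨ ∃ g, q = false :: lfs as n w X g ∧
      ∀ v, A v q = v g := by
    intro q
    rw [hA]
    by_cases h : idx q < N
    swap
    · left
      refine ⟨false, fun v => ?_⟩
      beta_reduce
      unfold orc
      rw [dif_neg h]
    by_cases h1 : ∃ i', pe hN2 i' = ⟨idx q, h⟩
    · obtain ⟨i', hi'⟩ := h1
      left
      refine ⟨z i', fun v => ?_⟩
      beta_reduce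
      unfold orc
      rw [dif_pos h, ← hi', owr_e (pe_inj hN2)]
    by_cases h2 : ∃ g, psP hN g = ⟨idx q, h⟩
    · obtain ⟨g, hg⟩ := h2
      right
      refine ⟨g, ?_, fun v => ?_⟩
      · have h3 := congrArg Fin.val hg
        exact (idx_inj h3).symm
      · beta_reduce
        unfold orc
        rw [dif_pos h, owr_off _ _ h1, ← hg, owr_e (psP_inj hN hX)]
    · left
      refine ⟨a ⟨idx q, h⟩, fun v => ?_⟩
      beta_reduce
      unfold orc
      rw [dif_pos h, owr_off _ _ h1, owr_off _ _ h2]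
  by_cases hne : Nonempty (Idx (Fin X) (8 * n :: pw as) → Bool)
  swap
  · exact Or.inl ⟨false, fun z => absurd ⟨z⟩ hne⟩
  obtain ⟨v₀⟩ := hne
  have hP : ∀ v, pwd (A v) = pwd (A v₀) := by
    intro v
    funext m'
    unfold pwd
    refine List.map_congr_left fun i _ => ?_
    rcases hdep (ppos m' i) with ⟨c, hc⟩ | ⟨g, hg, -⟩
    · rw [hc, hc]
    · obtain ⟨t, ht⟩ := ppos_head m' i
      rw [ht] at hg
      simp at hg
  have hPm : pwd (A v₀) m = w := by
    have h0 : pwd (A v₀) m = List.ofFn z := by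
      rw [hA]
      exact pwd_on hN2 _ z
    exact h0.trans hw.symm
  have hstar : ∀ g, Star (pwd (A v₀)) m (false :: lfs as n w X g) := by
    intro g
    have h1 : w <:+: false :: lfs as n w X g :=
      (infix_lfs as n w X g).trans (List.suffix_cons _ _).isInfix
    have h2 : w.length = m := by rw [hw, List.length_ofFn]
    refine ⟨m, le_rfl, ?_, ?_⟩
    · rw [← h2]
      exact h1.length_le
    · rw [hPm, List.take_of_length_le (le_of_eq h2)]
      exact h1
  have key : ∀ v, wd (A v) T = oh (pwd (A v₀)) T (A v) := by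
    intro v
    unfold wd
    rw [hP]
  have hgoal : (∃ c, ∀ v, oh (pwd (A v₀)) T (A v) q = c) ∨
      ∃ g, ∀ v, oh (pwd (A v₀)) T (A v) q = v g := by
    match q with
    | [] => exact Or.inl ⟨false, fun v => oh_nil⟩
    | true :: q =>
      left
      refine ⟨oh (pwd (A v₀)) T (A v₀) (true :: q), fun v => oh_star hTm (fun s hs => ?_) q⟩
      rcases hdep s with ⟨c, hc⟩ | ⟨g, hg, -⟩
      · rw [hc, hc]
      · exact absurd (by rw [hg]; exact hstar g) hs
    | false :: q =>
      by_cases hq : (false :: q).length < T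
      swap
      · exact Or.inl ⟨false, fun v => oh_ge (by omega)⟩
      rcases hdep (false :: q) with ⟨c, hc⟩ | ⟨g, -, hg⟩
      · exact Or.inl ⟨c, fun v => by rw [oh_data hq, hc]⟩
      · exact Or.inr ⟨g, fun v => by rw [oh_data hq, hg]⟩
  rcases hgoal with ⟨c, hc⟩ | ⟨g, hg⟩
  · refine Or.inl ⟨c, fun v => ?_⟩
    have h1 := hc v
    rw [← key v, hA] at h1
    exact h1
  · refine Or.inr ⟨g, fun v => ?_⟩
    have h1 := hg v
    rw [← key v, hA] at h1
    exact h1

open Classical in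
theorem evH_prob (θ : Par) {as : List ℕ} {n m N u X T : ℕ} (hX : X = 2 ^ (u + 11)) (hn : 5 ≤ n)
    (hu : 8 * u ≤ n) (hk : as.length = θ.k + 1)
    (hlaw : Ex (nxt (1 / 2) (1 / 2 ^ (4 * n)) 0 (8 * n) (8 * n) law0)
      (Wt (X := Fin X) (1 / 2 ^ (4 * n)) (1 / 2 ^ (2 * n)) (8 * n * 2 ^ (4 * n))
        (1 / 256) (2 ^ (3 * u + 11)) (2 ^ (u + 9)) (pw as)) ≤ (9 / 10) ^ X)
    (hm : lx as n + as.sum + 8 * n ≤ m) (hTm : T ≤ 2 ^ m) (hN : 2 ^ (3 * m + 2) ≤ N) {ℓ mm : ℕ}
    (hℓ : 2 * (lx as n + m) + 1 + θ.p'.eval (lx as n + m) ≤ ℓ)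
    (hmm : θ.p.eval ℓ ≤ mm) (hM : θ.M.p.eval (ℓ + θ.k * (2 * mm + 1)) ≤ 2 ^ (2 * u)) :
    Ex unif (fun a : Fin N → Bool => if EvH θ as n m X T (orc N a) then (1 : ℝ) else 0) ≤
      2 ^ θ.p'.eval (lx as n + m) * (2 ^ θ.p'.eval (lx as n + m) *
      (θ.k * (2 ^ (ℓ + θ.k * (2 * mm + 1) + 2) * (1 / 2) ^ (2 ^ (2 * u) + 1)) +
        3 * (1 / 2) ^ (2 ^ u))) := by
  obtain ⟨p1, hp1⟩ : ∃ p1, p1 = θ.p'.eval (lx as n + m) := ⟨_, rfl⟩
  obtain ⟨B, hB⟩ : ∃ B : ℝ, B = θ.k * (2 ^ (ℓ + θ.k * (2 * mm + 1) + 2) *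
    (1 / 2) ^ (2 ^ (2 * u) + 1)) + 3 * (1 / 2) ^ (2 ^ u) := ⟨_, rfl⟩
  have hB0 : 0 ≤ B := by rw [hB]; positivity
  rw [← hp1] at hℓ
  rw [← hp1, ← hB, Ex_owr (pe hN) (pe_inj hN), Ex_comm]
  refine (Ex_mono unif_nn (G := fun _ => 2 ^ p1 * (2 ^ p1 * B)) fun z => ?_).trans
    (le_of_eq (Ex_const unif_sm _))
  have hpos : ∀ g : Idx (Fin X) (8 * n :: pw as), idx (false :: lfs as n (List.ofFn z) X g) < N := by
    intro g
    refine (idx_lt_pow (B := 2 * m + 1) ?_).trans_le
      ((Nat.pow_le_pow_right (by norm_num) (by omega)).trans hN)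
    have h3 := lfs_len as n (List.ofFn z) X g
    rw [List.length_ofFn] at h3
    rw [List.length_cons]
    omega
  have hXn : X ≤ 2 ^ (n + 11) := by rw [hX]; exact Nat.pow_le_pow_right (by norm_num) (by omega)
  have h1 : ∀ a : Fin N → Bool, (if EvH θ as n m X T (orc N (owr (pe hN) a z))
      then (1 : ℝ) else 0) ≤ ∑ c ∈ range (p1 + 1), ∑ h ∈ strsOf c,
      bv (decide (∀ j : Fin X, Qo θ.M (θ.p.eval (2 * (lx as n + m) + 1 + c)) θ.k
        (pairBits (inpP as n (List.ofFn z) X j) h) (wd (orc N (owr (pe hN) a z)) T) ≠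
        Tr (8 * n :: pw as) (fun g => a (psP hpos g)) j)) := by
    intro a
    have hbv : ∀ b, 0 ≤ bv b := fun b => by unfold bv; split_ifs <;> norm_num
    by_cases hE : EvH θ as n m X T (orc N (owr (pe hN) a z))
    · rw [if_pos hE]
      obtain ⟨c, hc, h, hh, hj⟩ := hE
      rw [pwd_on] at hj
      have e1 : (fun g => orc N (owr (pe hN) a z) (false :: lfs as n (List.ofFn z) X g)) =
          fun g => a (psP hpos g) := by
        funext g
        rw [orc_off hN _ _ fun i h => by simp [ppos] at h]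
        unfold orc
        rw [dif_pos (hpos g)]
        rfl
      rw [e1] at hj
      rw [← hp1] at hc
      refine le_trans ?_ (Finset.single_le_sum (f := fun c => ∑ h ∈ strsOf c,
        bv (decide (∀ j : Fin X, Qo θ.M (θ.p.eval (2 * (lx as n + m) + 1 + c)) θ.k
        (pairBits (inpP as n (List.ofFn z) X j) h) (wd (orc N (owr (pe hN) a z)) T) ≠
        Tr (8 * n :: pw as) (fun g => a (psP hpos g)) j)))
        (fun c _ => Finset.sum_nonneg fun h _ => hbv _) (Finset.mem_range.2 (by omega : c < p1 + 1)))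
      refine le_trans ?_ (Finset.single_le_sum (f := fun h =>
        bv (decide (∀ j : Fin X, Qo θ.M (θ.p.eval (2 * (lx as n + m) + 1 + c)) θ.k
        (pairBits (inpP as n (List.ofFn z) X j) h) (wd (orc N (owr (pe hN) a z)) T) ≠
        Tr (8 * n :: pw as) (fun g => a (psP hpos g)) j)))
        (fun h _ => hbv _) hh)
      unfold bv
      rw [if_pos (decide_eq_true hj)]
    · rw [if_neg hE]
      exact Finset.sum_nonneg fun c _ => Finset.sum_nonneg fun h _ => hbv _
  refine (Ex_mono unif_nn h1).trans ?_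
  rw [Ex_sum]
  have h2 : ∀ c ∈ range (p1 + 1), Ex unif (fun a : Fin N → Bool => ∑ h ∈ strsOf c,
      bv (decide (∀ j : Fin X, Qo θ.M (θ.p.eval (2 * (lx as n + m) + 1 + c)) θ.k
        (pairBits (inpP as n (List.ofFn z) X j) h) (wd (orc N (owr (pe hN) a z)) T) ≠
        Tr (8 * n :: pw as) (fun g => a (psP hpos g)) j))) ≤ 2 ^ p1 * B := by
    intro c hc
    rw [Finset.mem_range, Nat.lt_succ_iff] at hc
    rw [Ex_sum]
    have h3 : ∀ h ∈ strsOf c, Ex unif (fun a : Fin N → Bool =>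
        bv (decide (∀ j : Fin X, Qo θ.M (θ.p.eval (2 * (lx as n + m) + 1 + c)) θ.k
        (pairBits (inpP as n (List.ofFn z) X j) h) (wd (orc N (owr (pe hN) a z)) T) ≠
        Tr (8 * n :: pw as) (fun g => a (psP hpos g)) j))) ≤ B := by
      intro h hh
      have hm2 : θ.p.eval (2 * (lx as n + m) + 1 + c) ≤ mm :=
        (eval_mono _ (by omega)).trans hmm
      have h4 : θ.k * (2 * θ.p.eval (2 * (lx as n + m) + 1 + c) + 1) ≤ θ.k * (2 * mm + 1) :=
        Nat.mul_le_mul_left _ (by omega)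
      refine (base_P hX hn hu hk hlaw (psP hpos) (psP_inj hpos hXn) (M := θ.M)
        (m := θ.p.eval (2 * (lx as n + m) + 1 + c)) (ℓ := ℓ)
        ((eval_mono _ (by omega)).trans hM) (fun j => pairBits (inpP as n (List.ofFn z) X j) h)
        (fun j => ?_) (fun a => wd (orc N (owr (pe hN) a z)) T)
        (fun a q => dep_finalH hTm hpos hXn hN a z rfl q)).trans ?_
      · rw [A2.length_pairBits, inpP_len, List.length_ofFn, mem_strsOf'.1 hh]
        omega
      · rw [hB]
        apply add_le_add _ le_rfl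
        apply mul_le_mul_of_nonneg_left _ (by positivity)
        apply mul_le_mul_of_nonneg_right _ (by positivity)
        exact pow_le_pow_right₀ (by norm_num) (by omega)
    refine (Finset.sum_le_sum h3).trans ?_
    rw [Finset.sum_const, nsmul_eq_mul]
    apply mul_le_mul_of_nonneg_right _ hB0
    have h5 : (strsOf c).card ≤ 2 ^ p1 :=
      (card_strsOf c).trans (Nat.pow_le_pow_right (by norm_num) hc)
    exact_mod_cast h5
  refine (Finset.sum_le_sum h2).trans ?_
  rw [Finset.sum_const, Finset.card_range, nsmul_eq_mul]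
  apply mul_le_mul_of_nonneg_right _ (by positivity)
  have : p1 + 1 ≤ 2 ^ p1 := Nat.lt_two_pow_self
  exact_mod_cast this

end Pool.Agent.W908.HS
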